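import Pool.Agent.Q270.CC.Zs
import Pool.Agent.Q285.EN.Int

set_option autoImplicit false

/-!
# Project EL, almost sure part: summable deficits, or conditional means tending to zero
-/

namespace Pool.Agent.Q270.CC

open Finset Filter Topology MeasureTheory
open Pool.Agent.Q270.EN Pool.Agent.Q182.EN Pool.Agent.Q211.EN

/-- the conditions on the law for the almost sure statements -/
def AsCond {Ω : Type} [MeasurableSpace Ω] (μ : Measure Ω) (e : ℕ → Ω → ℝ) (P : Set ℕ) : Prop :=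
  (Summable fun p : {p : ℕ // p.Prime ∧ p ∈ P} => dd μ e (pr P p) p / (p : ℕ)) ∨
  (∃ κ : ℝ, 0 < κ ∧ ∀ᶠ x : ℕ in atTop, (pr P x).card * (Real.log 2 -
    1 / (Real.log (Real.log x)) ^ (1 + κ)) ≤ ent μ e (pr P x)) ∨
  ∃ η : ℕ → ℝ, Tendsto η atTop (𝓝 0) ∧ ∀ p, p.Prime → p ∈ P → BiasLe μ e P p (η p)

lemma cond_of {Ω : Type} [MeasurableSpace Ω] (μ : Measure Ω) [IsProbabilityMeasure μ]
    (e : ℕ → Ω → ℝ) (he : Sgn e) (P : Set ℕ) (h : AsCond μ e P) :
    (Summable fun p : {p : ℕ // p.Prime ∧ p ∈ P} => dd μ e (pr P p) p / (p : ℕ)) ∨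
      ∃ η : ℕ → ℝ, Tendsto η atTop (𝓝 0) ∧ ∀ p, p.Prime → p ∈ P → BiasLe μ e P p (η p) := by
  rcases h with h | ⟨κ, hκ, h⟩ | h
  · exact Or.inl h
  · left
    obtain ⟨m, hm1, hm2, hm0, _⟩ := a_COREA Ω μ e he P
    refine Pool.Agent.Q177.EN.t_RATE Pool.Agent.Q26.EN.t_TEL Ω μ e he P hm0 ⟨κ, hκ, ?_⟩
    filter_upwards [h] with x hx
    unfold defic
    have h1 : (pr P x).card * (Real.log 2 - 1 / (Real.log (Real.log x)) ^ (1 + κ)) =
        (pr P x).card * Real.log 2 - (pr P x).card / (Real.log (Real.log x)) ^ (1 + κ) := by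
      ring
    rw [h1] at hx
    linarith
  · exact Or.inr h

lemma term_le {Ω : Type} (e : ℕ → Ω → ℝ) (hv : ∀ p ω, e p ω = 1 ∨ e p ω = -1)
    (P : Set ℕ) (T U : Finset (ℕ × ℕ)) (w : ℕ → ℂ) (hw : ∀ n, ‖w n‖ ≤ 1) (ω : Ω) (n : ℕ) :
    ‖w n * (vT T n : ℂ) * ((∏ q ∈ U, cmf P (fun p => e p ω) (q.1 * n + q.2) : ℝ) : ℂ)‖ ≤ vT T n := by
  classical
  have h2 : ∀ q ∈ U, |cmf P (fun p => e p ω) (q.1 * n + q.2)| = 1 := by
    intro q _
    unfold cmf
    rw [Finset.abs_prod]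
    refine Finset.prod_eq_one fun p _ => ?_
    rw [abs_pow]
    split_ifs
    · have h5 : |(fun p => e p ω) p| = 1 := by
        rcases hv p ω with h | h <;> simp [h]
      rw [h5, one_pow]
    · simp
  rw [norm_mul, norm_mul, Complex.norm_real, Complex.norm_real, Real.norm_eq_abs, Real.norm_eq_abs,
    Finset.abs_prod, Finset.prod_eq_one h2, mul_one, abs_of_nonneg (vT_nonneg T n)]
  exact mul_le_of_le_one_left (vT_nonneg T n) (hw n)

theorem asL {Ω : Type} [MeasurableSpace Ω] (μ : Measure Ω) [IsProbabilityMeasure μ]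
    (e : ℕ → Ω → ℝ) (he : Sgn e) (P : Set ℕ)
    (hP : Tendsto (fun N : ℕ => ms P ⌈(Real.log N) ^ 2⌉₊ N) atTop atTop)
    (hcond : AsCond μ e P) (A : ℕ) (T U : Finset (ℕ × ℕ)) (w : ℕ → ℂ) (hTU : Adm A A (T ∪ U))
    (hdis : Disjoint T U) (hU : U.Nonempty) (hw : ∀ n, ‖w n‖ ≤ 1) : ∀ᵐ ω ∂μ,
      Tendsto (fun N : ℕ => cl P e T U w N ω / (N : ℂ)) atTop (𝓝 0) := by
  classical
  obtain ⟨m, hm5, hmm, hm1, hm0, hm2, hgen⟩ := t_GENC μ e he P
  have hA : 1 ≤ A := by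
    obtain ⟨q, hq⟩ := hTU.1
    exact (hTU.2.1 q hq).1.trans (hTU.2.1 q hq).2.1
  obtain ⟨C₀, hC₀, hI⟩ := Pool.Agent.Q285.EN.t_INT A T (adm_left hTU)
  have heng := engine μ P A m (drift_all μ e P m hm5 hmm hm1 hm2 (cond_of μ e he P hcond) A)
    (fun ω => {fun n => w n * (vT T n : ℂ) *
      ((∏ q ∈ U, cmf P (fun p => e p ω) (q.1 * n + q.2) : ℝ) : ℂ)}) (vT T) (by
      intro ω a ha n
      rw [Set.mem_singleton_iff] at ha
      rw [ha]
      exact term_le e he.val P T U w hw ω n) C₀ hC₀ hI (by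
      intro ε hε
      obtain ⟨C, K, y, hC0, hK, hy, hy1, hKb, hcore⟩ :=
        a_COREL P (fun N => ⌈(Real.log N) ^ 2⌉₊) hP A T U hA hTU hdis hU ε hε
      have hZ : ∀ N : ℕ, ∃ Z : Ω → ℝ, Measurable Z ∧ (∀ ω, 0 ≤ Z ω) ∧ (∃ B : ℝ, ∀ ω, Z ω ≤ B) ∧
          ((∃ Z : Ω → ℝ, Measurable Z ∧ (∀ ω, 0 ≤ Z ω) ∧ (∃ B : ℝ, ∀ ω, Z ω ≤ B) ∧
            ∫ ω, Z ω ^ 2 ∂μ ≤ (C * N) ^ 2 / y N ∧
            ∀ ω, ‖cl P e T U w N ω‖ ≤ ε * N + Z ω + C * N *
              ∑ p ∈ (pr P (2 * A * N)).filter (y N < ·), 1 / (p : ℝ) * |m p ω|) →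
            ∫ ω, Z ω ^ 2 ∂μ ≤ (C * N) ^ 2 / y N ∧
            ∀ ω, ‖cl P e T U w N ω‖ ≤ ε * N + Z ω + C * N *
              ∑ p ∈ (pr P (2 * A * N)).filter (y N < ·), 1 / (p : ℝ) * |m p ω|) := by
        intro N
        by_cases h : ∃ Z : Ω → ℝ, Measurable Z ∧ (∀ ω, 0 ≤ Z ω) ∧ (∃ B : ℝ, ∀ ω, Z ω ≤ B) ∧
            ∫ ω, Z ω ^ 2 ∂μ ≤ (C * N) ^ 2 / y N ∧
            ∀ ω, ‖cl P e T U w N ω‖ ≤ ε * N + Z ω + C * N *
              ∑ p ∈ (pr P (2 * A * N)).filter (y N < ·), 1 / (p : ℝ) * |m p ω|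
        · obtain ⟨Z, h1, h2, h3, h4, h5⟩ := h
          exact ⟨Z, h1, h2, h3, fun _ => ⟨h4, h5⟩⟩
        · exact ⟨fun _ => 0, measurable_const, fun _ => le_rfl, ⟨0, fun _ => le_rfl⟩,
            fun h1 => absurd h1 h⟩
      choose Z hZm hZ0 hZb hZc using hZ
      choose Bd hBd using hZb
      have hcore' : ∀ᶠ N : ℕ in atTop, ∫ ω, Z N ω ^ 2 ∂μ ≤ (C * N) ^ 2 / y N ∧
            ∀ ω, ‖cl P e T U w N ω‖ ≤ ε * N + Z N ω + C * N *
              ∑ p ∈ (pr P (2 * A * N)).filter (y N < ·), 1 / (p : ℝ) * |m p ω| := by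
        filter_upwards [hcore] with N hN
        exact hZc N (hN Ω μ e m he hgen w hw)
      refine ⟨C, K, y, Z, hC0, hK, hy, hKb, ?_, ?_⟩
      · intro θ hθ
        refine bc μ Z hZm hZ0 Bd hBd 2 (by norm_num) (C ^ 2) (by positivity) ?_ θ ε hθ hε
        filter_upwards [hcore', hy1, eventually_ge_atTop 2] with N h1 h2 h3
        have hN : (0 : ℝ) < N := by exact_mod_cast (by omega : 0 < N)
        have hlog : 0 < Real.log N := Real.log_pos (by exact_mod_cast (by omega : 1 < N))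
        have h4 : ∫ ω, (Z N ω / N) ^ 2 ∂μ = (∫ ω, Z N ω ^ 2 ∂μ) / (N : ℝ) ^ 2 := by
          rw [← integral_div]
          refine integral_congr_ae (Eventually.of_forall fun ω => ?_)
          simp only [div_pow]
        have h5 : (Real.log N) ^ 2 ≤ (y N : ℝ) := by
          have h6 : (Real.log N) ^ 2 ≤ (⌈(Real.log N) ^ 2⌉₊ : ℝ) := Nat.le_ceil _
          have h7 : (⌈(Real.log N) ^ 2⌉₊ : ℝ) ≤ (y N : ℝ) := by exact_mod_cast h2.1
          linarith
        rw [h4, div_le_iff₀ (by positivity)]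
        refine h1.1.trans ?_
        have h8 : (C * (N : ℝ)) ^ 2 / (y N : ℝ) ≤ (C * (N : ℝ)) ^ 2 / (Real.log N) ^ 2 :=
          div_le_div_of_nonneg_left (by positivity) (by positivity) h5
        refine h8.trans (le_of_eq ?_)
        ring
      · filter_upwards [hcore'] with N hN ω a ha
        rw [Set.mem_singleton_iff] at ha
        rw [ha]
        exact hN.2 ω)
  filter_upwards [heng] with ω hω
  rw [Metric.tendsto_atTop']
  intro ε hε
  obtain ⟨N₀, hN₀⟩ := hω (ε / 2) (by positivity)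
  refine ⟨N₀, fun N hN => ?_⟩
  have h1 := hN₀ N hN _ (Set.mem_singleton _)
  have hNr : (0 : ℝ) < N := by exact_mod_cast (by omega : 0 < N)
  rw [dist_zero_right, norm_div, Complex.norm_natCast, div_lt_iff₀ hNr]
  have h2 : ‖cl P e T U w N ω‖ ≤ ε / 2 * N := h1
  have h9 : ε / 2 * (N : ℝ) < ε * N := by
    have : 0 < ε * N := by positivity
    linarith
  linarith

/-- all systems of forms at once -/
theorem asL_all' {Ω : Type} [MeasurableSpace Ω] (μ : Measure Ω) [IsProbabilityMeasure μ]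
    (e : ℕ → Ω → ℝ) (he : Sgn e) (P : Set ℕ)
    (hP : Tendsto (fun N : ℕ => ms P ⌈(Real.log N) ^ 2⌉₊ N) atTop atTop)
    (hcond : AsCond μ e P) (g : ℕ → ℂ) (hg : ∀ n, ‖g n‖ ≤ 1) :
    ∀ᵐ ω ∂μ, ∀ (A : ℕ) (T U : Finset (ℕ × ℕ)),
      Adm A A (T ∪ U) → Disjoint T U → U.Nonempty →
      Tendsto (fun N : ℕ => (∑ n ∈ Icc 1 N, (vT T n : ℂ) *
        ∏ q ∈ U, chg P g (fun p => e p ω) (q.1 * n + q.2)) / (N : ℂ)) atTop (𝓝 0) := by
  rw [ae_all_iff]
  intro A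
  rw [ae_all_iff]
  intro T
  rw [ae_all_iff]
  intro U
  by_cases hT : Adm A A (T ∪ U)
  · by_cases hd : Disjoint T U
    · by_cases hU : U.Nonempty
      · have h1 := asL μ e he P hP hcond A T U
          (fun n => ∏ q ∈ U, g (q.1 * n + q.2)) hT hd hU (by
            intro n
            rw [norm_prod]
            exact Finset.prod_le_one (fun q _ => norm_nonneg _) (fun q _ => hg _))
        filter_upwards [h1] with ω hω _ _ _
        refine hω.congr fun N => ?_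
        congr 1
        unfold cl
        refine Finset.sum_congr rfl fun n _ => ?_
        unfold chg
        rw [Finset.prod_mul_distrib]
        push_cast
        ring
      · exact Filter.Eventually.of_forall fun ω _ _ h => absurd h hU
    · exact Filter.Eventually.of_forall fun ω _ h _ => absurd h hd
  · exact Filter.Eventually.of_forall fun ω h _ _ => absurd h hT

end Pool.Agent.Q270.CC
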