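import Pool.Agent.Q270.EN.AsmL

set_option autoImplicit false

/-!
# All completions: decomposition `m = b s` with `s` the product of the primes `p > y` of `P` with `p ∥ m`
-/

namespace Pool.Agent.Q270.CC

open Finset Filter Topology MeasureTheory
open Pool.Agent.Q270.EN

/-- `f` is a multiplicative function bounded by `1` with the value `s p` at the primes `p` of `P`; its
values at all other prime powers are arbitrary -/
structure Comp (P : Set ℕ) (s : ℕ → ℝ) (f : ℕ → ℂ) : Prop where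
  one : f 1 = 1
  mul : ∀ m n, Nat.Coprime m n → f (m * n) = f m * f n
  bd : ∀ n, ‖f n‖ ≤ 1
  val : ∀ p, p.Prime → p ∈ P → f p = (s p : ℂ)

open Classical in
/-- the primes `p > y` of `P` with `p ∥ m` -/
noncomputable def FF (P : Set ℕ) (y m : ℕ) : Finset ℕ :=
  m.primeFactors.filter fun p => p ∈ P ∧ y < p ∧ m.factorization p = 1

/-- their product -/
noncomputable def sP (P : Set ℕ) (y m : ℕ) : ℕ := ∏ p ∈ FF P y m, p

lemma mem_FF {P : Set ℕ} {y m p : ℕ} : p ∈ FF P y m ↔ p.Prime ∧ p ∈ P ∧ y < p ∧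
    m.factorization p = 1 := by
  classical
  unfold FF
  rw [Finset.mem_filter]
  constructor
  · rintro ⟨h1, h2, h3, h4⟩
    exact ⟨Nat.prime_of_mem_primeFactors h1, h2, h3, h4⟩
  · rintro ⟨h1, h2, h3, h4⟩
    refine ⟨?_, h2, h3, h4⟩
    rw [← Nat.support_factorization, Finsupp.mem_support_iff, h4]
    exact one_ne_zero

lemma fact_sP (P : Set ℕ) (y m q : ℕ) : (sP P y m).factorization q = if q ∈ FF P y m then 1 else 0 := by
  classical
  unfold sP
  rw [Nat.factorization_prod (fun p hp => (mem_FF.1 hp).1.ne_zero), Finsupp.finsetSum_apply]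
  rw [Finset.sum_congr rfl (fun p hp => by rw [(mem_FF.1 hp).1.factorization])]
  by_cases hq : q ∈ FF P y m
  · rw [if_pos hq, Finset.sum_eq_single q]
    · simp
    · intro b _ hb
      rw [Finsupp.single_apply, if_neg hb]
    · intro h
      exact absurd hq h
  · rw [if_neg hq]
    refine Finset.sum_eq_zero fun p hp => ?_
    rw [Finsupp.single_apply, if_neg]
    rintro rfl
    exact hq hp

lemma sP_ne (P : Set ℕ) (y m : ℕ) : sP P y m ≠ 0 := by
  unfold sP
  exact Finset.prod_ne_zero_iff.2 fun p hp => (mem_FF.1 hp).1.ne_zero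

lemma sP_dvd (P : Set ℕ) (y m : ℕ) (hm : m ≠ 0) : sP P y m ∣ m := by
  rw [← Nat.factorization_le_iff_dvd (sP_ne P y m) hm]
  intro q
  rw [fact_sP]
  split_ifs with h
  · rw [(mem_FF.1 h).2.2.2]
  · exact Nat.zero_le _

/-- the cofactor -/
noncomputable def bP (P : Set ℕ) (y m : ℕ) : ℕ := m / sP P y m

lemma bs_eq (P : Set ℕ) (y m : ℕ) (hm : m ≠ 0) : bP P y m * sP P y m = m :=
  Nat.div_mul_cancel (sP_dvd P y m hm)

lemma bP_ne (P : Set ℕ) (y m : ℕ) (hm : m ≠ 0) : bP P y m ≠ 0 := by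
  intro h
  have h1 := bs_eq P y m hm
  rw [h, zero_mul] at h1
  exact hm h1.symm

lemma coprime_bs (P : Set ℕ) (y m : ℕ) (hm : m ≠ 0) : Nat.Coprime (bP P y m) (sP P y m) := by
  rw [Nat.coprime_iff_gcd_eq_one, Nat.gcd_comm, ← Nat.coprime_iff_gcd_eq_one]
  unfold sP
  refine Nat.Coprime.prod_left fun p hp => ?_
  have h1 := mem_FF.1 hp
  rw [h1.1.coprime_iff_not_dvd]
  intro h2
  have h3 := bs_eq P y m hm
  have h4 : m.factorization p = (bP P y m).factorization p + (sP P y m).factorization p := by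
    rw [← h3, Nat.factorization_mul (bP_ne P y m hm) (sP_ne P y m), h3]
    rfl
  rw [fact_sP, if_pos hp, h1.2.2.2] at h4
  have h5 : 1 ≤ (bP P y m).factorization p := by
    rw [Nat.one_le_iff_ne_zero]
    intro h6
    exact (Nat.factorization_eq_zero_iff _ _).1 h6 |>.elim (fun h => h h1.1) fun h =>
      h.elim (fun h => h h2) fun h => bP_ne P y m hm h
  omega

lemma f_prod {P : Set ℕ} {s : ℕ → ℝ} {f : ℕ → ℂ} (hf : Comp P s f) (F : Finset ℕ)
    (hF : ∀ p ∈ F, p.Prime ∧ p ∈ P) : f (∏ p ∈ F, p) = ((∏ p ∈ F, s p : ℝ) : ℂ) := by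
  classical
  induction F using Finset.induction_on with
  | empty => simp [hf.one]
  | insert a F ha ih =>
    rw [Finset.prod_insert ha, Finset.prod_insert ha, hf.mul]
    · rw [ih fun p hp => hF p (Finset.mem_insert_of_mem hp),
        hf.val a (hF a (Finset.mem_insert_self a F)).1 (hF a (Finset.mem_insert_self a F)).2]
      push_cast
      rfl
    · refine Nat.Coprime.prod_right fun q hq => ?_
      rw [Nat.coprime_primes (hF a (Finset.mem_insert_self a F)).1
        (hF q (Finset.mem_insert_of_mem hq)).1]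
      rintro rfl
      exact ha hq

lemma f_eq {P : Set ℕ} {s : ℕ → ℝ} {f : ℕ → ℂ} (hf : Comp P s f) (y m : ℕ) (hm : m ≠ 0) :
    f m = f (bP P y m) * ((∏ p ∈ FF P y m, s p : ℝ) : ℂ) := by
  have h1 := bs_eq P y m hm
  calc f m = f (bP P y m * sP P y m) := by rw [h1]
    _ = f (bP P y m) * f (sP P y m) := hf.mul _ _ (coprime_bs P y m hm)
    _ = _ := by
      congr 1
      exact f_prod hf _ fun p hp => ⟨(mem_FF.1 hp).1, (mem_FF.1 hp).2.1⟩

lemma odd_sP (P : Set ℕ) (y m X : ℕ) (hm : m ≠ 0) (hX : m ≤ X) :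
    odd (pr P X) (sP P y m) = FF P y m := by
  ext p
  unfold odd
  rw [Finset.mem_filter, fact_sP]
  constructor
  · rintro ⟨_, h2⟩
    by_contra h3
    rw [if_neg h3] at h2
    exact absurd h2 (by decide)
  · intro h
    have h1 := mem_FF.1 h
    rw [if_pos h]
    refine ⟨mem_pr.2 ⟨h1.1, h1.2.1, ?_⟩, by decide⟩
    refine (Nat.le_of_dvd (Nat.pos_of_ne_zero hm) ?_).trans hX
    apply Nat.dvd_of_factorization_pos
    rw [h1.2.2.2]
    exact one_ne_zero

lemma even_sP {P : Set ℕ} {y m p : ℕ} (h : Even ((sP P y m).factorization p)) : p ∉ FF P y m := by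
  intro h1
  rw [fact_sP, if_pos h1] at h
  exact absurd h (by decide)

lemma dvd_of_FF {P : Set ℕ} {y m p : ℕ} (h : p ∈ FF P y m) : p ∣ sP P y m :=
  Finset.dvd_prod_of_mem (fun p => p) h

end Pool.Agent.Q270.CC
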