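import Pool.Agent.Q270.CC.Base

set_option autoImplicit false

/-!
# All completions: the decomposition according to the cofactor
-/

namespace Pool.Agent.Q270.CC

open Finset Filter Topology MeasureTheory
open Pool.Agent.Q270.EN

open Classical in
lemma comb {Ω : Type} [MeasurableSpace Ω] (μ : Measure Ω) [IsProbabilityMeasure μ]
    (e m : ℕ → Ω → ℝ) (P : Set ℕ) (hm4 : GenP μ e P m) (X y : ℕ) (I : Finset ℕ) (mm : ℕ → ℕ)
    (w : ℕ → ℂ) (hmm : ∀ n ∈ I, mm n ≠ 0 ∧ mm n ≤ X) :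
    ∃ Z : Ω → ℝ, Measurable Z ∧ (∀ ω, 0 ≤ Z ω) ∧ (∃ B : ℝ, ∀ ω, Z ω ≤ B) ∧
      ∫ ω, Z ω ∂μ ≤ ∑ b ∈ I.image (fun n => bP P y (mm n)),
        Real.sqrt (∑ p ∈ (pr P X).filter (y < ·),
          (∑ n ∈ I.filter (fun n => bP P y (mm n) = b ∧ p ∈ FF P y (mm n)), ‖w n‖) ^ 2) ∧
      ∀ ω, ∀ f : ℕ → ℂ, Comp P (fun p => e p ω) f → ‖∑ n ∈ I, w n * f (mm n)‖ ≤
        ∑ n ∈ I.filter (fun n => FF P y (mm n) = ∅), ‖w n‖ + Z ω +
          ∑ p ∈ (pr P X).filter (y < ·),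
            (∑ n ∈ I.filter (fun n => p ∈ FF P y (mm n)), ‖w n‖) * |m p ω| := by
  obtain ⟨Bs, hBs⟩ : ∃ Bs : Finset ℕ, Bs = I.image (fun n => bP P y (mm n)) := ⟨_, rfl⟩
  rw [← hBs]
  obtain ⟨M, hM⟩ : ∃ M : ℕ → ℕ, M = fun n => sP P y (mm n) := ⟨_, rfl⟩
  obtain ⟨Ib, hIb⟩ : ∃ Ib : ℕ → Finset ℕ, Ib = fun b => I.filter (fun n => bP P y (mm n) = b) :=
    ⟨_, rfl⟩
  have hodd : ∀ n ∈ I, odd (pr P X) (M n) = FF P y (mm n) := by
    intro n hn
    rw [hM]
    exact odd_sP P y (mm n) X (hmm n hn).1 (hmm n hn).2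
  have hIbI : ∀ b, Ib b ⊆ I := by
    intro b
    rw [hIb]
    exact Finset.filter_subset _ _
  obtain ⟨σ, hσ⟩ : ∃ σ : ℕ → ℕ → ℝ, σ = fun b p =>
    ∑ n ∈ I.filter (fun n => bP P y (mm n) = b ∧ p ∈ FF P y (mm n)), ‖w n‖ := ⟨_, rfl⟩
  have hσ0 : ∀ b p, 0 ≤ σ b p := by
    intro b p
    rw [hσ]
    exact Finset.sum_nonneg fun n _ => norm_nonneg _
  have hcoef : ∀ b, ∀ p ∈ (pr P X).filter (y < ·),
      ∑ n ∈ (Ib b).filter (fun n => p ∈ odd (pr P X) (M n)), ‖w n‖ ≤ σ b p := by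
    intro b p _
    rw [hσ]
    apply le_of_eq
    refine Finset.sum_congr ?_ fun _ _ => rfl
    ext n
    rw [hIb]
    simp only [Finset.mem_filter]
    constructor
    · rintro ⟨⟨h1, h2⟩, h3⟩
      rw [hodd n h1] at h3
      exact ⟨h1, h2, h3⟩
    · rintro ⟨h1, h2, h3⟩
      rw [← hodd n h1] at h3
      exact ⟨⟨h1, h2⟩, h3⟩
  choose Z hZ1 hZ2 hZ3 hZ4 hZ5 using fun b => hm4 X y ℕ (Ib b) M w (σ b) (hcoef b)
  have hBnd : ∀ b, ∃ B : ℝ, ∀ ω, Z b ω ≤ B := fun b => ⟨_, hZ3 b⟩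
  have hZint : ∀ b, Integrable (Z b) μ := by
    intro b
    obtain ⟨B, hB⟩ := hBnd b
    refine Integrable.of_bound (hZ1 b).aestronglyMeasurable B ?_
    filter_upwards with ω
    rw [Real.norm_eq_abs, abs_of_nonneg (hZ2 b ω)]
    exact hB ω
  refine ⟨fun ω => ∑ b ∈ Bs, Z b ω, Finset.measurable_sum _ fun b _ => hZ1 b,
    fun ω => Finset.sum_nonneg fun b _ => hZ2 b ω, ?_, ?_, ?_⟩
  · choose B hB using hBnd
    exact ⟨∑ b ∈ Bs, B b, fun ω => Finset.sum_le_sum fun b _ => hB b ω⟩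
  · rw [integral_finsetSum _ fun b _ => hZint b]
    refine Finset.sum_le_sum fun b _ => ?_
    have h1 : ∀ p ∈ (pr P X).filter (y < ·), (∑ n ∈ I.filter (fun n => bP P y (mm n) = b ∧
        p ∈ FF P y (mm n)), ‖w n‖) ^ 2 = σ b p ^ 2 := by
      intro p _
      rw [hσ]
    rw [Finset.sum_congr rfl h1]
    apply Real.le_sqrt_of_sq_le
    refine le_trans ?_ (hZ4 b)
    -- Jensen
    have hsq : Integrable (fun ω => Z b ω ^ 2) μ := by
      obtain ⟨B, hB⟩ := hBnd b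
      refine Integrable.of_bound ((hZ1 b).pow_const 2).aestronglyMeasurable (B ^ 2) ?_
      filter_upwards with ω
      rw [Real.norm_eq_abs, abs_of_nonneg (sq_nonneg _)]
      exact pow_le_pow_left₀ (hZ2 b ω) (hB ω) 2
    obtain ⟨t, ht⟩ : ∃ t, t = ∫ ω, Z b ω ∂μ := ⟨_, rfl⟩
    have h2 : 0 ≤ ∫ ω, (Z b ω - t) ^ 2 ∂μ := integral_nonneg fun ω => sq_nonneg _
    have h3 : ∀ ω, (Z b ω - t) ^ 2 = Z b ω ^ 2 - 2 * t * Z b ω + t ^ 2 := fun ω => by ring
    simp only [h3] at h2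
    have i1 : Integrable (fun ω => 2 * t * Z b ω) μ := (hZint b).const_mul _
    have e1 : ∫ ω, (Z b ω ^ 2 - 2 * t * Z b ω + t ^ 2) ∂μ =
        ∫ ω, (Z b ω ^ 2 - 2 * t * Z b ω) ∂μ + ∫ _ω, t ^ 2 ∂μ :=
      integral_add (hsq.sub i1) (integrable_const _)
    have e2 : ∫ ω, (Z b ω ^ 2 - 2 * t * Z b ω) ∂μ = ∫ ω, Z b ω ^ 2 ∂μ - ∫ ω, 2 * t * Z b ω ∂μ :=
      integral_sub hsq i1
    have e3 : ∫ ω, 2 * t * Z b ω ∂μ = 2 * t * ∫ ω, Z b ω ∂μ := integral_const_mul _ _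
    have e4 : ∫ _ω : Ω, t ^ 2 ∂μ = t ^ 2 := by
      rw [integral_const, smul_eq_mul]
      simp
    rw [e1, e2, e3, e4, ← ht] at h2
    rw [← ht]
    nlinarith
  · intro ω f hf
    have hsplit : ∑ n ∈ I, w n * f (mm n) = ∑ b ∈ Bs, f b * ∑ n ∈ Ib b, w n *
        ((∏ p ∈ odd (pr P X) (M n), e p ω : ℝ) : ℂ) := by
      have h1 : ∀ n ∈ I, w n * f (mm n) = f (bP P y (mm n)) * (w n *
          ((∏ p ∈ odd (pr P X) (M n), e p ω : ℝ) : ℂ)) := by
        intro n hn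
        rw [hodd n hn, f_eq hf y (mm n) (hmm n hn).1]
        ring
      rw [Finset.sum_congr rfl h1, ← Finset.sum_fiberwise_of_maps_to (g := fun n => bP P y (mm n))
        (t := Bs) (fun n hn => by rw [hBs]; exact Finset.mem_image_of_mem _ hn)]
      refine Finset.sum_congr rfl fun b _ => ?_
      rw [Finset.mul_sum, hIb]
      refine Finset.sum_congr rfl fun n hn => ?_
      rw [(Finset.mem_filter.1 hn).2]
    rw [hsplit]
    refine (norm_sum_le _ _).trans ?_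
    have h2 : ∀ b ∈ Bs, ‖f b * ∑ n ∈ Ib b, w n *
        ((∏ p ∈ odd (pr P X) (M n), e p ω : ℝ) : ℂ)‖ ≤
        ∑ n ∈ (Ib b).filter (fun n => FF P y (mm n) = ∅), ‖w n‖ + Z b ω +
          ∑ p ∈ (pr P X).filter (y < ·), σ b p * |m p ω| := by
      intro b _
      rw [norm_mul]
      refine (mul_le_of_le_one_left (norm_nonneg _) (hf.bd b)).trans ?_
      refine (hZ5 b ω).trans ?_
      refine add_le_add (add_le_add ?_ le_rfl) le_rfl
      refine Finset.sum_le_sum_of_subset_of_nonneg ?_ fun n _ _ => norm_nonneg _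
      intro n hn
      obtain ⟨h3, h4⟩ := Finset.mem_filter.1 hn
      refine Finset.mem_filter.2 ⟨h3, ?_⟩
      rw [Finset.eq_empty_iff_forall_notMem]
      intro p hp
      have h5 := mem_FF.1 hp
      have h6 : p ∈ pr P X := by
        rw [← hodd n (hIbI b h3)] at hp
        exact (Finset.mem_filter.1 hp).1
      have h7 := h4 p h6 h5.2.2.1
      rw [hM] at h7
      exact even_sP h7 hp
    refine (Finset.sum_le_sum h2).trans ?_
    rw [Finset.sum_add_distrib, Finset.sum_add_distrib]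
    have h3 : ∑ b ∈ Bs, ∑ n ∈ (Ib b).filter (fun n => FF P y (mm n) = ∅), ‖w n‖ =
        ∑ n ∈ I.filter (fun n => FF P y (mm n) = ∅), ‖w n‖ := by
      rw [← Finset.sum_fiberwise_of_maps_to (g := fun n => bP P y (mm n)) (t := Bs)
        (s := I.filter (fun n => FF P y (mm n) = ∅)) (fun n hn => by
          rw [hBs]
          exact Finset.mem_image_of_mem _ (Finset.mem_filter.1 hn).1)]
      refine Finset.sum_congr rfl fun b _ => ?_
      refine Finset.sum_congr ?_ fun _ _ => rfl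
      ext n
      rw [hIb]
      simp only [Finset.mem_filter]
      tauto
    have h4 : ∑ b ∈ Bs, ∑ p ∈ (pr P X).filter (y < ·), σ b p * |m p ω| =
        ∑ p ∈ (pr P X).filter (y < ·),
            (∑ n ∈ I.filter (fun n => p ∈ FF P y (mm n)), ‖w n‖) * |m p ω| := by
      rw [Finset.sum_comm]
      refine Finset.sum_congr rfl fun p _ => ?_
      rw [← Finset.sum_mul]
      congr 1
      rw [← Finset.sum_fiberwise_of_maps_to (g := fun n => bP P y (mm n)) (t := Bs)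
        (s := I.filter (fun n => p ∈ FF P y (mm n))) (fun n hn => by
          rw [hBs]
          exact Finset.mem_image_of_mem _ (Finset.mem_filter.1 hn).1)]
      refine Finset.sum_congr rfl fun b _ => ?_
      rw [hσ]
      refine Finset.sum_congr ?_ fun _ _ => rfl
      ext n
      simp only [Finset.mem_filter]
      tauto
    rw [h3, h4]

end Pool.Agent.Q270.CC
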