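import Pool.Agent.Q270.CC.Comb

set_option autoImplicit false

/-!
# All completions: the main inequality
-/

namespace Pool.Agent.Q270.CC

open Finset Filter Topology MeasureTheory
open Pool.Agent.Q270.EN

lemma sum_union_le' (S₁ S₂ : Finset ℕ) (f : ℕ → ℝ) (hf : ∀ n, 0 ≤ f n) :
    ∑ n ∈ S₁ ∪ S₂, f n ≤ ∑ n ∈ S₁, f n + ∑ n ∈ S₂, f n := by
  have h1 := Finset.sum_union_inter (s₁ := S₁) (s₂ := S₂) (f := f)
  have h2 : 0 ≤ ∑ n ∈ S₁ ∩ S₂, f n := Finset.sum_nonneg fun n _ => hf n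
  linarith

/-- the number of the multiples of `b p` -/
lemma cnt_bp {P : Set ℕ} {y X : ℕ} (I : Finset ℕ) (mm : ℕ → ℕ) (hinj : Function.Injective mm)
    (hmm : ∀ n ∈ I, mm n ≠ 0 ∧ mm n ≤ X) (b p : ℕ) (hb : 1 ≤ b) (hp : 1 ≤ p)
    [DecidablePred fun n => bP P y (mm n) = b ∧ p ∈ FF P y (mm n)] :
    (((I.filter (fun n => bP P y (mm n) = b ∧ p ∈ FF P y (mm n))).card : ℕ) : ℝ) ≤
      (X : ℝ) / b * (1 / p) := by
  classical
  have hbp : 1 ≤ b * p := Nat.mul_pos hb hp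
  have h1 : (I.filter (fun n => bP P y (mm n) = b ∧ p ∈ FF P y (mm n))).card ≤ X / (b * p) := by
    have h2 : (I.filter (fun n => bP P y (mm n) = b ∧ p ∈ FF P y (mm n))).image mm ⊆
        (Icc 1 (X / (b * p))).image (fun i => b * p * i) := by
      intro m hm
      obtain ⟨n, hn, rfl⟩ := Finset.mem_image.1 hm
      obtain ⟨h3, h4, h5⟩ := Finset.mem_filter.1 hn
      obtain ⟨h6, h7⟩ := hmm n h3
      have h8 := bs_eq P y (mm n) h6
      obtain ⟨t, ht⟩ := dvd_of_FF h5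
      rw [Finset.mem_image]
      refine ⟨t, ?_, ?_⟩
      · rw [Finset.mem_Icc]
        have h9 : b * p * t = mm n := by
          rw [← h8, h4, ht]
          ring
        constructor
        · rcases Nat.eq_zero_or_pos t with h10 | h10
          · rw [h10, mul_zero] at h9
            exact absurd h9.symm h6
          · exact h10
        · rw [Nat.le_div_iff_mul_le (by omega)]
          calc t * (b * p) = mm n := by rw [← h9]; ring
            _ ≤ X := h7
      · rw [← h8, h4, ht]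
        ring
    calc (I.filter (fun n => bP P y (mm n) = b ∧ p ∈ FF P y (mm n))).card =
        ((I.filter (fun n => bP P y (mm n) = b ∧ p ∈ FF P y (mm n))).image mm).card :=
          (Finset.card_image_of_injective _ hinj).symm
      _ ≤ ((Icc 1 (X / (b * p))).image (fun i => b * p * i)).card := Finset.card_le_card h2
      _ ≤ (Icc 1 (X / (b * p))).card := Finset.card_image_le
      _ = X / (b * p) := by simp
  have h2 : (((X / (b * p) : ℕ) : ℕ) : ℝ) ≤ (X : ℝ) / ((b * p : ℕ) : ℝ) := Nat.cast_div_le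
  have h3 : (X : ℝ) / ((b * p : ℕ) : ℝ) = (X : ℝ) / b * (1 / p) := by
    push_cast
    rw [div_mul_div_comm, mul_one]
  rw [← h3]
  exact (Nat.cast_le.2 h1).trans h2

open Classical in
lemma sumZ {P : Set ℕ} {y X : ℕ} (hy : 1 ≤ y) (I : Finset ℕ) (mm : ℕ → ℕ)
    (hinj : Function.Injective mm)
    (hmm : ∀ n ∈ I, mm n ≠ 0 ∧ mm n ≤ X) (w : ℕ → ℂ) (V : ℝ) (hV : 0 ≤ V)
    (hw : ∀ n ∈ I, ‖w n‖ ≤ V) :
    ∑ b ∈ I.image (fun n => bP P y (mm n)),
        Real.sqrt (∑ p ∈ (pr P X).filter (y < ·),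
          (∑ n ∈ I.filter (fun n => bP P y (mm n) = b ∧ p ∈ FF P y (mm n)), ‖w n‖) ^ 2) ≤
      V * X * (1 + Real.log X) / Real.sqrt y := by
  have hy0 : (0 : ℝ) < y := by exact_mod_cast hy
  have hsy : 0 < Real.sqrt y := Real.sqrt_pos.2 hy0
  have hb1 : ∀ b ∈ I.image (fun n => bP P y (mm n)), 1 ≤ b ∧ b ≤ X := by
    intro b hb
    obtain ⟨n, hn, rfl⟩ := Finset.mem_image.1 hb
    obtain ⟨h1, h2⟩ := hmm n hn
    refine ⟨Nat.one_le_iff_ne_zero.2 (bP_ne P y _ h1), ?_⟩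
    unfold bP
    exact (Nat.div_le_self _ _).trans h2
  have h1 : ∀ b ∈ I.image (fun n => bP P y (mm n)),
      Real.sqrt (∑ p ∈ (pr P X).filter (y < ·),
          (∑ n ∈ I.filter (fun n => bP P y (mm n) = b ∧ p ∈ FF P y (mm n)), ‖w n‖) ^ 2) ≤
      V * X / Real.sqrt y * (1 / b) := by
    intro b hb
    have hb0 : (0 : ℝ) < b := by exact_mod_cast (hb1 b hb).1
    rw [Real.sqrt_le_left (by positivity)]
    have h2 : ∀ p ∈ (pr P X).filter (y < ·),
        (∑ n ∈ I.filter (fun n => bP P y (mm n) = b ∧ p ∈ FF P y (mm n)), ‖w n‖) ^ 2 ≤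
        (V * (X / b)) ^ 2 * (1 / (p : ℝ) ^ 2) := by
      intro p hp
      obtain ⟨hpp, hpP, hpX, hpy⟩ := mem_win.1 hp
      have h3 : ∑ n ∈ I.filter (fun n => bP P y (mm n) = b ∧ p ∈ FF P y (mm n)), ‖w n‖ ≤
          V * (X / b * (1 / p)) := by
        refine (Finset.sum_le_sum fun n hn => hw n (Finset.mem_filter.1 hn).1).trans ?_
        rw [Finset.sum_const, nsmul_eq_mul, mul_comm]
        exact mul_le_mul_of_nonneg_left (cnt_bp I mm hinj hmm b p (hb1 b hb).1 hpp.pos) hV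
      calc (∑ n ∈ I.filter (fun n => bP P y (mm n) = b ∧ p ∈ FF P y (mm n)), ‖w n‖) ^ 2 ≤
          (V * (X / b * (1 / p))) ^ 2 :=
            pow_le_pow_left₀ (Finset.sum_nonneg fun n _ => norm_nonneg _) h3 2
        _ = _ := by ring
    refine (Finset.sum_le_sum h2).trans ?_
    rw [← Finset.mul_sum]
    have h9 := inv_sq_sum y hy ((pr P X).filter (y < ·)) (fun p hp => (Finset.mem_filter.1 hp).2)
    refine (mul_le_mul_of_nonneg_left h9 (by positivity)).trans (le_of_eq ?_)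
    have h10 : Real.sqrt y ^ 2 = y := Real.sq_sqrt hy0.le
    have h11 : (V * X / Real.sqrt y * (1 / b)) ^ 2 = (V * (X / b)) ^ 2 / (Real.sqrt y ^ 2) := by
      field_simp
    rw [h11, h10]
    ring
  refine (Finset.sum_le_sum h1).trans ?_
  rw [← Finset.mul_sum]
  have h2 : ∑ b ∈ I.image (fun n => bP P y (mm n)), 1 / (b : ℝ) ≤ 1 + Real.log X := by
    have h3 : ∑ b ∈ I.image (fun n => bP P y (mm n)), 1 / (b : ℝ) ≤ ∑ b ∈ Icc 1 X, 1 / (b : ℝ) := by
      refine Finset.sum_le_sum_of_subset_of_nonneg ?_ fun b _ _ => by positivity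
      intro b hb
      rw [Finset.mem_Icc]
      exact hb1 b hb
    refine h3.trans ?_
    have h4 := harmonic_le_one_add_log X
    refine le_trans (le_of_eq ?_) h4
    rw [harmonic_eq_sum_Icc]
    push_cast
    refine Finset.sum_congr rfl fun i _ => ?_
    rw [one_div]
  refine (mul_le_mul_of_nonneg_left h2 (by positivity)).trans (le_of_eq ?_)
  ring

/-- the size of the von Mangoldt factors -/
lemma vT_le {A : ℕ} {T : Finset (ℕ × ℕ)} (hA : 1 ≤ A)
    (hT : ∀ q ∈ T, q.1 ≤ A ∧ q.2 ≤ A) {n N : ℕ} (hn : 1 ≤ n) (hnN : n ≤ N) :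
    vT T n ≤ (1 + Real.log ((2 * A * N : ℕ) : ℝ)) ^ T.card := by
  unfold vT
  rw [← Finset.prod_const]
  refine Finset.prod_le_prod (fun q _ => ArithmeticFunction.vonMangoldt_nonneg) fun q hq => ?_
  refine ArithmeticFunction.vonMangoldt_le_log.trans ?_
  have h1 : q.1 * n + q.2 ≤ 2 * A * N := by
    have h2 : q.1 * n ≤ A * N := Nat.mul_le_mul (hT q hq).1 hnN
    have h3 : q.2 ≤ A * N := (hT q hq).2.trans (Nat.le_mul_of_pos_right A (by omega))
    have h4 : 2 * A * N = A * N + A * N := by ring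
    omega
  rcases Nat.eq_zero_or_pos (q.1 * n + q.2) with h2 | h2
  · rw [h2]
    have : 0 ≤ Real.log ((2 * A * N : ℕ) : ℝ) := Real.log_natCast_nonneg _
    simp only [Nat.cast_zero, Real.log_zero]
    linarith
  · have h3 : Real.log ((q.1 * n + q.2 : ℕ) : ℝ) ≤ Real.log ((2 * A * N : ℕ) : ℝ) :=
      Real.log_le_log (by exact_mod_cast h2) (by exact_mod_cast h1)
    linarith

/-- the sum for a function `f` -/
noncomputable def cf (f : ℕ → ℂ) (T : Finset (ℕ × ℕ)) (q0 : ℕ × ℕ) (w : ℕ → ℂ) (N : ℕ) : ℂ :=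
  ∑ n ∈ Icc 1 N, w n * (vT T n : ℂ) * f (q0.1 * n + q0.2)

/-- **CORE for all completions**, pointwise; the constants and the window do not depend on the law -/
def S_COREC : Prop := ∀ (P : Set ℕ) (u : ℕ → ℕ),
  Tendsto (fun N : ℕ => ms P (u N) N) atTop atTop →
  ∀ (A : ℕ) (T : Finset (ℕ × ℕ)) (q0 : ℕ × ℕ), 1 ≤ A → Adm A A (T ∪ {q0}) → q0 ∉ T →
  ∀ ε : ℝ, 0 < ε → ∃ (C K : ℝ) (y : ℕ → ℕ), 0 ≤ C ∧ 0 < K ∧ Tendsto y atTop atTop ∧
    (∀ᶠ N in atTop, u N ≤ y N ∧ 1 ≤ y N ∧ y N ≤ N) ∧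
    (∀ᶠ N : ℕ in atTop, ms P (y N) (2 * A * N) ≤ K) ∧
    ∀ᶠ N : ℕ in atTop, ∀ (Ω : Type) [MeasurableSpace Ω] (μ : Measure Ω) [IsProbabilityMeasure μ]
      (e m : ℕ → Ω → ℝ), Sgn e → GenP μ e P m → ∀ w : ℕ → ℂ, (∀ n, ‖w n‖ ≤ 1) →
      ∃ Z : Ω → ℝ, Measurable Z ∧ (∀ ω, 0 ≤ Z ω) ∧ (∃ B : ℝ, ∀ ω, Z ω ≤ B) ∧
        ∫ ω, Z ω ∂μ ≤ 2 * A * N * (1 + Real.log ((2 * A * N : ℕ) : ℝ)) ^ (T.card + 1) /
          Real.sqrt (y N) ∧
        ∀ ω, ∀ f : ℕ → ℂ, Comp P (fun p => e p ω) f → ‖cf f T q0 w N‖ ≤ ε * N + Z ω + C * N *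
          ∑ p ∈ (pr P (2 * A * N)).filter (y N < ·), 1 / (p : ℝ) * |m p ω|

theorem t_COREC (hCls : S_CLS) (hBig : S_BIG) (hEvn : S_EVN) : S_COREC := by
  classical
  intro P u hP A T q0 hA hTU hq0 ε hε
  have hdis : Disjoint T {q0} := by
    rw [Finset.disjoint_singleton_right]
    exact hq0
  have hU : ({q0} : Finset (ℕ × ℕ)).Nonempty := Finset.singleton_nonempty q0
  have hUA := adm_right hTU hU
  have hprod : ∀ n : ℕ, ∏ q ∈ ({q0} : Finset (ℕ × ℕ)), (q.1 * n + q.2) = q0.1 * n + q0.2 :=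
    fun n => Finset.prod_singleton _ _
  have hq1 : 1 ≤ q0.1 ∧ q0.1 ≤ A ∧ q0.2 ≤ A := hUA.2.1 q0 (Finset.mem_singleton_self q0)
  obtain ⟨C1, hC1, hbig⟩ := hBig A T {q0} hTU hdis
  obtain ⟨δ, hδ⟩ : ∃ δ : ℝ, δ = min (1 / 4) (ε / (4 * C1)) := ⟨_, rfl⟩
  have hδ0 : 0 < δ := by
    rw [hδ]
    exact lt_min (by norm_num) (by positivity)
  have hδ4 : δ ≤ 1 / 4 := by
    rw [hδ]
    exact min_le_left _ _
  have hC1δ : C1 * δ ≤ ε / 4 := by
    have h1 : δ ≤ ε / (4 * C1) := by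
      rw [hδ]
      exact min_le_right _ _
    calc C1 * δ ≤ C1 * (ε / (4 * C1)) := mul_le_mul_of_nonneg_left h1 hC1.le
      _ = ε / 4 := by field_simp
  have hbig := hbig δ hδ0 hδ4
  obtain ⟨C2, hC2, hcls⟩ := hCls A T (adm_left hTU) δ hδ0 (by linarith)
  obtain ⟨C4, hC4, hcls4⟩ := hCls A T (adm_left hTU) (1 / 4) (by norm_num) (by norm_num)
  obtain ⟨C3, c', hC3, hc', hevn⟩ := hEvn A T {q0} hTU hdis hU
  obtain ⟨c, hc⟩ : ∃ c : ℝ, c = min (3 / 8) c' := ⟨_, rfl⟩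
  have hc0 : 0 < c := by
    rw [hc]
    exact lt_min (by norm_num) hc'
  have hc38 : c ≤ 3 / 8 := by
    rw [hc]
    exact min_le_left _ _
  have hc1 : c ≤ 1 := by linarith
  obtain ⟨K0, hK0, hwin⟩ := winc P u hP c hc0 hc1 (2 * A) (by omega)
  obtain ⟨L, hL⟩ : ∃ L : ℝ, L = 1 + C3 * 4 / ε := ⟨_, rfl⟩
  have hL1 : 1 ≤ L := by
    rw [hL]
    have : 0 < C3 * 4 / ε := by positivity
    linarith
  have hLe : C3 * Real.exp (-L) ≤ ε / 4 := by
    have h1 : L ≤ Real.exp L := by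
      have := Real.add_one_le_exp L
      linarith
    rw [Real.exp_neg, ← div_eq_mul_inv, div_le_iff₀ (Real.exp_pos _)]
    have h2 : C3 * 4 / ε ≤ Real.exp L := by
      refine le_trans ?_ h1
      rw [hL]
      linarith
    rw [div_le_iff₀ hε] at h2
    linarith
  obtain ⟨y, hyinf, hyw⟩ := hwin L hL1
  refine ⟨C2, L + 1 + K0, y, hC2.le, by linarith, hyinf, ?_, ?_, ?_⟩
  · filter_upwards [hyw, hyinf.eventually_ge_atTop 1] with N h1 h2
    exact ⟨h1.2.2.2.2, h2, h1.2.2.1.trans h1.2.2.2.1⟩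
  · filter_upwards [hyw] with N h1
    exact h1.2.1
  have hyr := (tendsto_natCast_atTop_atTop (R := ℝ)).comp hyinf
  filter_upwards [hyw, hbig, hcls, hevn, hcls4,
    hyinf.eventually_ge_atTop (2 * A ^ 2 + 2), hyr.eventually_ge_atTop (8 * C3 / ε),
    hyr.eventually_ge_atTop (8 * C4 / ε),
    eventually_ge_atTop 1] with N h1 h2 h3 h4 h4' h5 h7 h7' hN1
  intro Ω _ μ _ e m he hm4 w hw
  obtain ⟨hw1, hw2, hw3, hw4, hw5⟩ := h1
  have hNn : (0 : ℝ) ≤ N := Nat.cast_nonneg _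
  have hN0 : (0 : ℝ) < N := by exact_mod_cast hN1
  have hN1r : (1 : ℝ) ≤ N := by exact_mod_cast hN1
  have hyA : 2 * A ^ 2 + 2 ≤ y N := h5
  have hAy : A < y N := by nlinarith
  have hy0 : (0 : ℝ) < y N := by exact_mod_cast (by omega : 0 < y N)
  obtain ⟨X, hX⟩ : ∃ X, X = 2 * A * N := ⟨_, rfl⟩
  rw [← hX] at hw2
  have hNX : N ≤ X := by
    rw [hX]
    exact Nat.le_mul_of_pos_left N (by omega)
  simp only [hprod] at h2 h4
  obtain ⟨I, hI⟩ : ∃ I : Finset ℕ, I = (Icc 1 N).filter (fun n => ¬ ∃ p : ℕ, p.Prime ∧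
    (N : ℝ) ^ (1 - δ) < p ∧ p ∣ (q0.1 * n + q0.2)) := ⟨_, rfl⟩
  obtain ⟨mm, hmmd⟩ : ∃ mm : ℕ → ℕ, mm = fun n => q0.1 * n + q0.2 := ⟨_, rfl⟩
  have hinj : Function.Injective mm := by
    intro a b hab
    rw [hmmd] at hab
    simp only at hab
    have h8 : q0.1 * a = q0.1 * b := by omega
    exact Nat.eq_of_mul_eq_mul_left (by omega) h8
  have hIN : ∀ n ∈ I, 1 ≤ n ∧ n ≤ N := by
    intro n hn
    rw [hI] at hn
    exact Finset.mem_Icc.1 (Finset.mem_filter.1 hn).1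
  have hmm : ∀ n ∈ I, mm n ≠ 0 ∧ mm n ≤ X := by
    intro n hn
    obtain ⟨h8, h9⟩ := hIN n hn
    rw [hmmd]
    simp only
    have h10 : q0.1 * n ≤ A * N := Nat.mul_le_mul hq1.2.1 h9
    have h11 : q0.2 ≤ A * N := hq1.2.2.trans (Nat.le_mul_of_pos_right A hN1)
    have h12 : 1 ≤ q0.1 * n := Nat.mul_pos hq1.1 h8
    have h13 : 2 * A * N = A * N + A * N := by ring
    omega
  obtain ⟨wv, hwv⟩ : ∃ wv : ℕ → ℂ, wv = fun n => w n * (vT T n : ℂ) := ⟨_, rfl⟩
  have hwvn : ∀ n, ‖wv n‖ ≤ vT T n := by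
    intro n
    rw [hwv]
    simp only [norm_mul, Complex.norm_real, Real.norm_eq_abs, abs_of_nonneg (vT_nonneg T n)]
    exact mul_le_of_le_one_left (vT_nonneg T n) (hw n)
  obtain ⟨Z, hZ1, hZ2, hZ3, hZ4, hZ5⟩ := comb μ e m P hm4 X (y N) I mm wv hmm
  have hlogX : 0 ≤ Real.log (X : ℝ) := Real.log_natCast_nonneg _
  -- the mean of `Z`
  have hZ4' : ∫ ω, Z ω ∂μ ≤ 2 * A * N * (1 + Real.log ((2 * A * N : ℕ) : ℝ)) ^ (T.card + 1) /
      Real.sqrt (y N) := by
    refine hZ4.trans ?_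
    refine (sumZ (by omega) I mm hinj hmm wv ((1 + Real.log (X : ℝ)) ^ T.card) (by positivity)
      (fun n hn => (hwvn n).trans ?_)).trans (le_of_eq ?_)
    · rw [hX]
      exact vT_le hA (fun q hq => ⟨(hTU.2.1 q (Finset.mem_union_left _ hq)).2.1,
        (hTU.2.1 q (Finset.mem_union_left _ hq)).2.2⟩) (hIN n hn).1 (hIN n hn).2
    · rw [← hX]
      have h8 : (X : ℝ) = 2 * A * N := by
        rw [hX]
        push_cast
        ring
      rw [← h8]
      ring
  -- the coefficients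
  have hcoef : ∀ p ∈ (pr P X).filter (y N < ·),
      ∑ n ∈ I.filter (fun n => p ∈ FF P (y N) (mm n)), ‖wv n‖ ≤ C2 * N * (1 / (p : ℝ)) := by
    intro p hp
    obtain ⟨hpp, hpP, hpX, hpy⟩ := mem_win.1 hp
    have hp0 : (0 : ℝ) < p := by exact_mod_cast hpp.pos
    have hdvd : ∀ n ∈ I, p ∈ FF P (y N) (mm n) → p ∣ q0.1 * n + q0.2 := by
      intro n hn h8
      have h9 := sP_dvd P (y N) (mm n) (hmm n hn).1
      have h10 := (dvd_of_FF h8).trans h9
      rw [hmmd] at h10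
      exact h10
    by_cases hpN : (p : ℝ) ≤ (N : ℝ) ^ (1 - δ)
    · have e1 : ∑ n ∈ I.filter (fun n => p ∈ FF P (y N) (mm n)), ‖wv n‖ ≤
          ∑ n ∈ (Icc 1 N).filter (fun n => p ∣ ∏ q ∈ ({q0} : Finset (ℕ × ℕ)), (q.1 * n + q.2)),
            vT T n := by
        refine (Finset.sum_le_sum fun n _ => hwvn n).trans ?_
        refine Finset.sum_le_sum_of_subset_of_nonneg ?_ (fun n _ _ => vT_nonneg T n)
        intro n hn
        obtain ⟨h8, h9⟩ := Finset.mem_filter.1 hn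
        refine Finset.mem_filter.2 ⟨Finset.mem_Icc.2 (hIN n h8), ?_⟩
        rw [hprod]
        exact hdvd n h8 h9
      refine e1.trans ?_
      have e2 := coef A {q0} hUA (vT T) (vT_nonneg T) N p hpp (by omega) (C2 * N / p) (by
        intro r
        have h8 := h3 p 1 r hpp le_rfl (by norm_num) (by rw [pow_one]; exact hpN)
        rw [pow_one] at h8
        exact h8)
      refine e2.trans (le_of_eq ?_)
      rw [Finset.card_singleton]
      push_cast
      ring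
    · rw [Finset.sum_eq_zero]
      · positivity
      · intro n hn
        exfalso
        obtain ⟨h8, h9⟩ := Finset.mem_filter.1 hn
        have h10 := hdvd n h8 h9
        rw [hI] at h8
        apply (Finset.mem_filter.1 h8).2
        exact ⟨p, hpp, not_le.1 hpN, h10⟩
  -- the part without primes
  obtain ⟨Q, hQ⟩ : ∃ Q, Q = (pr P ⌊(N : ℝ) ^ c⌋₊).filter (y N < ·) := ⟨_, rfl⟩
  have hQp : ∀ p ∈ Q, p.Prime ∧ y N < p ∧ (p : ℝ) ≤ (N : ℝ) ^ c := by
    intro p hp
    rw [hQ] at hp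
    obtain ⟨g1, g2, g3, g4⟩ := mem_win.1 hp
    refine ⟨g1, g4, ?_⟩
    have g5 : (p : ℝ) ≤ (⌊(N : ℝ) ^ c⌋₊ : ℝ) := by exact_mod_cast g3
    exact g5.trans (Nat.floor_le (by positivity))
  have hev : ∑ n ∈ I.filter (fun n => FF P (y N) (mm n) = ∅), ‖wv n‖ ≤ 3 * ε / 4 * N := by
    have e1 : ∑ n ∈ I.filter (fun n => FF P (y N) (mm n) = ∅), ‖wv n‖ ≤
        ∑ n ∈ (Icc 1 N).filter (fun n => ∀ p ∈ Q, Even ((q0.1 * n + q0.2).factorization p)), vT T n +
        ∑ p ∈ Q, ∑ n ∈ (Icc 1 N).filter (fun n => p ^ 2 ∣ q0.1 * n + q0.2), vT T n := by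
      refine (Finset.sum_le_sum fun n _ => hwvn n).trans ?_
      have g1 : I.filter (fun n => FF P (y N) (mm n) = ∅) ⊆
          (Icc 1 N).filter (fun n => ∀ p ∈ Q, Even ((q0.1 * n + q0.2).factorization p)) ∪
          Q.biUnion fun p => (Icc 1 N).filter (fun n => p ^ 2 ∣ q0.1 * n + q0.2) := by
        intro n hn
        obtain ⟨h8, h9⟩ := Finset.mem_filter.1 hn
        have h10 := Finset.mem_Icc.2 (hIN n h8)
        rw [Finset.mem_union, Finset.mem_filter, Finset.mem_biUnion]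
        by_cases h11 : ∀ p ∈ Q, Even ((q0.1 * n + q0.2).factorization p)
        · exact Or.inl ⟨h10, h11⟩
        · right
          push Not at h11
          obtain ⟨p, hp, h12⟩ := h11
          refine ⟨p, hp, Finset.mem_filter.2 ⟨h10, ?_⟩⟩
          have h13 : p ∉ FF P (y N) (mm n) := by
            rw [h9]
            exact Finset.notMem_empty _
          rw [mem_FF] at h13
          have h14 : (q0.1 * n + q0.2).factorization p ≠ 1 := by
            intro h15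
            apply h13
            refine ⟨(hQp p hp).1, ?_, (hQp p hp).2.1, ?_⟩
            · rw [hQ] at hp
              exact (mem_win.1 hp).2.1
            · rw [hmmd]
              exact h15
          have h15 : 2 ≤ (q0.1 * n + q0.2).factorization p := by
            rcases Nat.lt_or_ge ((q0.1 * n + q0.2).factorization p) 2 with h16 | h16
            · exfalso
              have h17 : (q0.1 * n + q0.2).factorization p = 0 := by omega
              rw [h17] at h12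
              exact h12 (by decide)
            · exact h16
          have h16 : q0.1 * n + q0.2 ≠ 0 := by
            have := (hmm n h8).1
            rw [hmmd] at this
            exact this
          exact ((hQp p hp).1.pow_dvd_iff_le_factorization h16).2 h15
      refine (Finset.sum_le_sum_of_subset_of_nonneg g1 (fun n _ _ => vT_nonneg T n)).trans ?_
      refine (sum_union_le' _ _ _ (fun n => vT_nonneg T n)).trans ?_
      exact add_le_add le_rfl (sum_biU _ _ _ (fun n => vT_nonneg T n))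
    refine e1.trans ?_
    have e2 := h4 (y N) Q hyA (fun p hp => ⟨(hQp p hp).1, (hQp p hp).2.1,
      (hQp p hp).2.2.trans (by
        apply Real.rpow_le_rpow_of_exponent_le hN1r
        rw [hc]
        exact min_le_right _ _)⟩)
    have g1 : Real.exp (-(∑ p ∈ Q, 1 / (p : ℝ))) ≤ Real.exp (-L) := by
      apply Real.exp_le_exp.2
      have : L ≤ ∑ p ∈ Q, 1 / (p : ℝ) := by
        rw [hQ]
        exact hw1
      linarith
    have g2 : C3 * (1 / (y N : ℝ)) ≤ ε / 8 := by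
      have h8 : 8 * C3 / ε ≤ (y N : ℝ) := h7
      rw [div_le_iff₀ hε] at h8
      rw [mul_one_div, div_le_iff₀ hy0]
      linarith
    have g3 : C3 * Real.exp (-(∑ p ∈ Q, 1 / (p : ℝ))) ≤ ε / 4 :=
      (mul_le_mul_of_nonneg_left g1 hC3.le).trans hLe
    have g4 : C3 * (N : ℝ) * (Real.exp (-(∑ p ∈ Q, 1 / (p : ℝ))) + 1 / y N) =
        N * (C3 * Real.exp (-(∑ p ∈ Q, 1 / (p : ℝ)))) + N * (C3 * (1 / y N)) := by ring
    rw [g4] at e2
    -- squares
    have e3 : ∑ p ∈ Q, ∑ n ∈ (Icc 1 N).filter (fun n => p ^ 2 ∣ q0.1 * n + q0.2), vT T n ≤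
        C4 * N / y N := by
      have g5 : ∀ p ∈ Q, ∑ n ∈ (Icc 1 N).filter (fun n => p ^ 2 ∣ q0.1 * n + q0.2), vT T n ≤
          C4 * N * (1 / (p : ℝ) ^ 2) := by
        intro p hp
        obtain ⟨hpp, hpy, hpN⟩ := hQp p hp
        by_cases hne : ((Icc 1 N).filter fun n => p ^ 2 ∣ q0.1 * n + q0.2).Nonempty
        · obtain ⟨r, hr⟩ := hne
          have hr2 := (Finset.mem_filter.1 hr).2
          have hcop : Nat.Coprime q0.1 (p ^ 2) := by
            apply Nat.Coprime.pow_right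
            rw [Nat.coprime_comm, Nat.Prime.coprime_iff_not_dvd hpp]
            intro h8
            have h9 := Nat.le_of_dvd (by omega) h8
            omega
          have h8 := h4' p 2 r hpp (by norm_num) le_rfl (by
            push_cast
            calc (p : ℝ) ^ 2 ≤ ((N : ℝ) ^ c) ^ 2 := pow_le_pow_left₀ (by positivity) hpN 2
              _ = (N : ℝ) ^ (c * 2) := by
                rw [← Real.rpow_natCast, ← Real.rpow_mul hN0.le]
                norm_num
              _ ≤ (N : ℝ) ^ (1 - 1 / 4 : ℝ) := by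
                apply Real.rpow_le_rpow_of_exponent_le hN1r
                linarith)
          have h9 : C4 * N * (1 / (p : ℝ) ^ 2) = C4 * N / ((p ^ 2 : ℕ) : ℝ) := by
            push_cast
            ring
          rw [h9]
          refine le_trans (Finset.sum_le_sum_of_subset_of_nonneg ?_
            (fun n _ _ => vT_nonneg T n)) h8
          intro n hn
          obtain ⟨h10, h11⟩ := Finset.mem_filter.1 hn
          refine Finset.mem_filter.2 ⟨h10, ?_⟩
          have h12 : (q0.1 * n + q0.2) ≡ (q0.1 * r + q0.2) [MOD p ^ 2] := by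
            rw [Nat.ModEq, Nat.mod_eq_zero_of_dvd h11, Nat.mod_eq_zero_of_dvd hr2]
          have h13 : q0.1 * n ≡ q0.1 * r [MOD p ^ 2] := Nat.ModEq.add_right_cancel' q0.2 h12
          exact Nat.ModEq.cancel_left_of_coprime hcop.symm h13
        · rw [Finset.not_nonempty_iff_eq_empty] at hne
          rw [hne, Finset.sum_empty]
          positivity
      refine (Finset.sum_le_sum g5).trans ?_
      rw [← Finset.mul_sum]
      have h9 := inv_sq_sum (y N) (by omega) Q (fun p hp => (hQp p hp).2.1)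
      refine (mul_le_mul_of_nonneg_left h9 (by positivity)).trans (le_of_eq ?_)
      ring
    have g6 : C4 * N / (y N : ℝ) ≤ ε / 8 * N := by
      have h8 : 8 * C4 / ε ≤ (y N : ℝ) := h7'
      rw [div_le_iff₀ hε] at h8
      rw [div_le_iff₀ hy0]
      have h9 := mul_le_mul_of_nonneg_right h8 hNn
      nlinarith
    have g7 := mul_le_mul_of_nonneg_left g3 hNn
    have g8 := mul_le_mul_of_nonneg_left g2 hNn
    have g9 : 0 ≤ ε * N := by positivity
    refine (add_le_add e2 (e3.trans g6)).trans ?_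
    linarith
  refine ⟨Z, hZ1, hZ2, hZ3, hZ4', fun ω f hf => ?_⟩
  have f1 := hZ5 ω f hf
  have f2 : ‖cf f T q0 w N‖ ≤ ‖∑ n ∈ I, wv n * f (mm n)‖ + ε / 4 * N := by
    have e0 : cf f T q0 w N = ∑ n ∈ Icc 1 N, wv n * f (mm n) := by
      unfold cf
      rw [hwv, hmmd]
    rw [e0, ← Finset.sum_filter_add_sum_filter_not (Icc 1 N) (fun n => ∃ p : ℕ, p.Prime ∧
      (N : ℝ) ^ (1 - δ) < p ∧ p ∣ (q0.1 * n + q0.2)), ← hI, add_comm]
    refine (norm_add_le _ _).trans (add_le_add le_rfl ?_)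
    refine (norm_sum_le _ _).trans ?_
    have e1 : ∀ n ∈ (Icc 1 N).filter (fun n => ∃ p : ℕ, p.Prime ∧
      (N : ℝ) ^ (1 - δ) < p ∧ p ∣ (q0.1 * n + q0.2)), ‖wv n * f (mm n)‖ ≤ vT T n := by
      intro n _
      rw [norm_mul]
      exact (mul_le_of_le_one_right (norm_nonneg _) (hf.bd _)).trans (hwvn n)
    refine (Finset.sum_le_sum e1).trans (h2.trans ?_)
    exact mul_le_mul_of_nonneg_right hC1δ hNn
  have f3 : ∑ p ∈ (pr P X).filter (y N < ·),
      (∑ n ∈ I.filter (fun n => p ∈ FF P (y N) (mm n)), ‖wv n‖) * |m p ω| ≤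
      C2 * N * ∑ p ∈ (pr P (2 * A * N)).filter (y N < ·), 1 / (p : ℝ) * |m p ω| := by
    rw [Finset.mul_sum, ← hX]
    refine Finset.sum_le_sum fun p hp => ?_
    have h8 := mul_le_mul_of_nonneg_right (hcoef p hp) (abs_nonneg (m p ω))
    linarith
  linarith

end Pool.Agent.Q270.CC
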