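import Pool.Agent.Q270.CC.Core
import Pool.Agent.Q285.EN.Asl

set_option autoImplicit false

/-!
# Almost sure engine, uniform in a family of functions

(`interpF` after helper285, helper182, helper211.)
-/

namespace Pool.Agent.Q270.CC

open Finset Filter Topology MeasureTheory
open Pool.Agent.Q270.EN Pool.Agent.Q182.EN Pool.Agent.Q211.EN

/-- from geometric sequences to all `N` -/
theorem interpF (𝓕 : Set (ℕ → ℂ)) (v : ℕ → ℝ) (hv : ∀ a ∈ 𝓕, ∀ n, ‖a n‖ ≤ v n) (B C : ℝ) (hB : 0 ≤ B) (hC : 0 < C)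
    (hI : ∀ θ : ℝ, 1 < θ → θ ≤ 2 → ∀ᶠ N : ℕ in atTop, ∀ M : ℕ, N ≤ M → (M : ℝ) ≤ θ * N →
      ∑ n ∈ Ioc N M, v n ≤ C * (θ - 1) * N)
    (h : ∀ r s : ℕ, ∀ᶠ i : ℕ in atTop, ∀ a ∈ 𝓕, ‖∑ n ∈ Icc 1 ⌊(1 + 1 / ((s : ℝ) + 1)) ^ i⌋₊, a n‖ ≤
      B * (1 / ((r : ℝ) + 1)) * (⌊(1 + 1 / ((s : ℝ) + 1)) ^ i⌋₊ : ℝ)) :
    ∀ η : ℝ, 0 < η → ∃ N₀ : ℕ, ∀ N : ℕ, N₀ < N → ∀ a ∈ 𝓕, ‖∑ n ∈ Icc 1 N, a n‖ ≤ η * N := by
  intro η hη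
  obtain ⟨s, hs⟩ := exists_nat_gt (8 * C / η + 1)
  obtain ⟨r, hr⟩ := exists_nat_gt (4 * B / η)
  have hCη : 0 < 8 * C / η := by positivity
  have hs1 : (1 : ℝ) < s := by linarith
  obtain ⟨θ, hθ⟩ : ∃ θ : ℝ, θ = 1 + 1 / ((s : ℝ) + 1) := ⟨_, rfl⟩
  have hs0 : (0 : ℝ) < (s : ℝ) + 1 := by linarith
  have hθ1 : 1 < θ := by
    rw [hθ]
    have : 0 < 1 / ((s : ℝ) + 1) := by positivity
    linarith
  obtain ⟨θ', hθ'⟩ : ∃ θ' : ℝ, θ' = 1 + 2 / ((s : ℝ) + 1) := ⟨_, rfl⟩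
  have hθ'1 : 1 < θ' := by
    rw [hθ']
    have : 0 < 2 / ((s : ℝ) + 1) := by positivity
    linarith
  have hθ'2 : θ' ≤ 2 := by
    rw [hθ']
    have : 2 / ((s : ℝ) + 1) ≤ 1 := by
      rw [div_le_one hs0]
      linarith
    linarith
  have hrs := h r s
  rw [← hθ] at hrs
  have hfl := floor_atTop θ hθ1
  have hI' := hfl.eventually (hI θ' hθ'1 hθ'2)
  have hbig : ∀ᶠ i : ℕ in atTop, 2 * ((s : ℝ) + 1) ≤ (⌊θ ^ i⌋₊ : ℝ) :=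
    (tendsto_natCast_atTop_atTop.comp hfl).eventually_ge_atTop _
  obtain ⟨i0, hi0⟩ := eventually_atTop.1 (hrs.and (hI'.and hbig))
  refine ⟨⌊θ ^ i0⌋₊, fun N hN a ha => ?_⟩
  have hN1 : 1 ≤ N := (floor_pos θ hθ1 i0).trans hN.le
  -- the index
  have hex : ∃ j, N < ⌊θ ^ j⌋₊ := (hfl.eventually_gt_atTop N).exists
  obtain ⟨j, hj⟩ : ∃ j, j = Nat.find hex := ⟨_, rfl⟩
  have hj1 : N < ⌊θ ^ j⌋₊ := by
    rw [hj]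
    exact Nat.find_spec hex
  have hj0 : j ≠ 0 := by
    intro h0
    rw [h0, pow_zero, Nat.floor_one] at hj1
    omega
  obtain ⟨i, rfl⟩ : ∃ i, j = i + 1 := ⟨j - 1, by omega⟩
  have hiN : ⌊θ ^ i⌋₊ ≤ N := by
    by_contra hcon
    push Not at hcon
    have := Nat.find_min' hex hcon
    omega
  have hii : i0 ≤ i := by
    by_contra hcon
    push Not at hcon
    have h1 : ⌊θ ^ (i + 1)⌋₊ ≤ ⌊θ ^ i0⌋₊ :=
      Nat.floor_le_floor (pow_le_pow_right₀ hθ1.le (by omega))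
    omega
  obtain ⟨g1, g2, g3⟩ := hi0 i hii
  obtain ⟨n0, hn0⟩ : ∃ n0, n0 = ⌊θ ^ i⌋₊ := ⟨_, rfl⟩
  rw [← hn0] at g1 g2 g3 hiN
  have hn0r : (n0 : ℝ) ≤ N := by exact_mod_cast hiN
  have hn00 : (0 : ℝ) ≤ n0 := Nat.cast_nonneg _
  have hup : (N : ℝ) ≤ θ' * n0 := by
    have h1 : (N : ℝ) ≤ θ ^ (i + 1) := by
      have h2 : ((⌊θ ^ (i + 1)⌋₊ : ℕ) : ℝ) ≤ θ ^ (i + 1) := Nat.floor_le (by positivity)
      have h3 : (N : ℝ) ≤ (⌊θ ^ (i + 1)⌋₊ : ℕ) := by exact_mod_cast hj1.le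
      exact h3.trans h2
    have h2 : θ ^ i < (n0 : ℝ) + 1 := by
      rw [hn0]
      exact Nat.lt_floor_add_one _
    have h3 : θ ^ (i + 1) ≤ θ * (n0 + 1) := by
      rw [pow_succ, mul_comm]
      exact mul_le_mul_of_nonneg_left h2.le (by linarith)
    have h4 : θ * (n0 + 1) ≤ θ' * n0 := by
      have e1 : θ' * n0 - θ * (n0 + 1) = n0 / ((s : ℝ) + 1) - θ := by
        rw [hθ, hθ']
        field_simp
        ring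
      have e2 : 2 ≤ (n0 : ℝ) / ((s : ℝ) + 1) := by
        rw [le_div_iff₀ hs0]
        exact g3
      have e3 : θ ≤ 2 := by
        rw [hθ]
        have : 1 / ((s : ℝ) + 1) ≤ 1 := by
          rw [div_le_one hs0]
          linarith
        linarith
      linarith
    linarith
  have g4 := g2 N hiN hup
  have hsplit : ∑ n ∈ Icc 1 N, a n = ∑ n ∈ Icc 1 n0, a n + ∑ n ∈ Ioc n0 N, a n := by
    have e1 : ∀ M : ℕ, Icc 1 M = Ioc 0 M := fun M => by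
      ext x
      simp only [Finset.mem_Icc, Finset.mem_Ioc]
      omega
    rw [e1, e1, Finset.sum_Ioc_consecutive _ (Nat.zero_le _) hiN]
  have h5 : ‖∑ n ∈ Icc 1 N, a n‖ ≤ B * (1 / ((r : ℝ) + 1)) * n0 + C * (θ' - 1) * n0 := by
    rw [hsplit]
    refine (norm_add_le _ _).trans (add_le_add (g1 a ha) ?_)
    refine (norm_sum_le _ _).trans ?_
    exact (Finset.sum_le_sum fun n _ => hv a ha n).trans g4
  have h6 : B * (1 / ((r : ℝ) + 1)) ≤ η / 4 := by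
    have hr0 : (0 : ℝ) < (r : ℝ) + 1 := by positivity
    rw [mul_one_div, div_le_iff₀ hr0]
    rw [div_lt_iff₀ hη] at hr
    linarith
  have h7 : C * (θ' - 1) ≤ η / 4 := by
    have e1 : θ' - 1 = 2 / ((s : ℝ) + 1) := by
      rw [hθ']
      ring
    rw [e1, mul_div_assoc', div_le_iff₀ hs0]
    have h8 : 8 * C / η ≤ (s : ℝ) + 1 := by linarith
    rw [div_le_iff₀ hη] at h8
    linarith
  have hNr : (0 : ℝ) < N := by exact_mod_cast hN1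
  have h8 : ‖∑ n ∈ Icc 1 N, a n‖ ≤ η / 2 * N := by
    have e1 := mul_le_mul_of_nonneg_right h6 hn00
    have e2 := mul_le_mul_of_nonneg_right h7 hn00
    have e3 : η / 2 * (n0 : ℝ) ≤ η / 2 * N := mul_le_mul_of_nonneg_left hn0r (by positivity)
    linarith
  refine h8.trans ?_
  exact mul_le_mul_of_nonneg_right (by linarith) hNr.le


/-- the sums of `(1 / p) |m p|` over the windows of bounded mass tend to `0` -/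
def Drift (P : Set ℕ) (A : ℕ) (m : ℕ → ℝ) : Prop := ∀ y : ℕ → ℕ, Tendsto y atTop atTop →
  ∀ K : ℝ, 0 < K → (∀ᶠ N : ℕ in atTop, ms P (y N) (2 * A * N) ≤ K) → ∀ δ : ℝ, 0 < δ →
  ∀ᶠ N : ℕ in atTop, ∑ p ∈ (pr P (2 * A * N)).filter (y N < ·), 1 / (p : ℝ) * |m p| ≤ δ

lemma drift_summable (P : Set ℕ) (A : ℕ) (m F : ℕ → ℝ) (hF : Summable F)
    (hFm : ∀ p, p.Prime → p ∈ P → F p = m p ^ 2 / p) : Drift P A m := by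
  intro y hy K hK hKb δ hδ
  exact window' P m A y hy K hK hKb F hF hFm δ hδ

lemma drift_bias (P : Set ℕ) (A : ℕ) (m η : ℕ → ℝ) (hη : Tendsto η atTop (𝓝 0))
    (hm : ∀ p, p.Prime → p ∈ P → |m p| ≤ η p) : Drift P A m := by
  intro y hy K hK hKb δ hδ
  obtain ⟨p0, hp0⟩ := Filter.eventually_atTop.1 (hη.eventually_lt_const
    (show (0 : ℝ) < δ / K by positivity))
  filter_upwards [hKb, hy.eventually_ge_atTop p0] with N h1 h2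
  have h3 : ∀ p ∈ (pr P (2 * A * N)).filter (y N < ·), 1 / (p : ℝ) * |m p| ≤ δ / K * (1 / (p : ℝ)) := by
    intro p hp
    obtain ⟨g1, g2, g3, g4⟩ := mem_win.1 hp
    have h4 := (hm p g1 g2).trans (hp0 p (h2.trans g4.le)).le
    have h5 := mul_le_mul_of_nonneg_left h4 (show (0 : ℝ) ≤ 1 / (p : ℝ) by positivity)
    linarith
  refine (Finset.sum_le_sum h3).trans ?_
  rw [← Finset.mul_sum]
  have h6 : ∑ p ∈ (pr P (2 * A * N)).filter (y N < ·), 1 / (p : ℝ) ≤ K := h1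
  calc δ / K * ∑ p ∈ (pr P (2 * A * N)).filter (y N < ·), 1 / (p : ℝ) ≤ δ / K * K :=
        mul_le_mul_of_nonneg_left h6 (by positivity)
    _ = δ := by field_simp

/-- **the almost sure engine** -/
theorem engine {Ω : Type} [MeasurableSpace Ω] (μ : Measure Ω) (P : Set ℕ) (A : ℕ)
    (m : ℕ → Ω → ℝ) (hD : ∀ᵐ ω ∂μ, Drift P A (fun p => m p ω)) (𝓕 : Ω → Set (ℕ → ℂ)) (v : ℕ → ℝ)
    (hv : ∀ ω, ∀ a ∈ 𝓕 ω, ∀ n, ‖a n‖ ≤ v n) (C₀ : ℝ) (hC₀ : 0 < C₀)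
    (hI : ∀ θ : ℝ, 1 < θ → θ ≤ 2 → ∀ᶠ N : ℕ in atTop, ∀ M : ℕ, N ≤ M → (M : ℝ) ≤ θ * N →
      ∑ n ∈ Ioc N M, v n ≤ C₀ * (θ - 1) * N)
    (hH : ∀ ε : ℝ, 0 < ε → ∃ (C K : ℝ) (y : ℕ → ℕ) (Z : ℕ → Ω → ℝ), 0 ≤ C ∧ 0 < K ∧
      Tendsto y atTop atTop ∧ (∀ᶠ N : ℕ in atTop, ms P (y N) (2 * A * N) ≤ K) ∧
      (∀ θ : ℝ, 1 < θ → ∀ᵐ ω ∂μ, ∀ᶠ i : ℕ in atTop, Z ⌊θ ^ i⌋₊ ω ≤ ε * (⌊θ ^ i⌋₊ : ℝ)) ∧
      ∀ᶠ N : ℕ in atTop, ∀ ω, ∀ a ∈ 𝓕 ω, ‖∑ n ∈ Icc 1 N, a n‖ ≤ ε * N + Z N ω + C * N *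
        ∑ p ∈ (pr P (2 * A * N)).filter (y N < ·), 1 / (p : ℝ) * |m p ω|) :
    ∀ᵐ ω ∂μ, ∀ η : ℝ, 0 < η → ∃ N₀ : ℕ, ∀ N : ℕ, N₀ < N → ∀ a ∈ 𝓕 ω,
      ‖∑ n ∈ Icc 1 N, a n‖ ≤ η * N := by
  have hall : ∀ᵐ ω ∂μ, ∀ r s : ℕ, ∀ᶠ i : ℕ in atTop, ∀ a ∈ 𝓕 ω,
      ‖∑ n ∈ Icc 1 ⌊(1 + 1 / ((s : ℝ) + 1)) ^ i⌋₊, a n‖ ≤
        3 * (1 / ((r : ℝ) + 1)) * (⌊(1 + 1 / ((s : ℝ) + 1)) ^ i⌋₊ : ℝ) := by
    rw [ae_all_iff]
    intro r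
    rw [ae_all_iff]
    intro s
    obtain ⟨ε, hε⟩ : ∃ ε : ℝ, ε = 1 / ((r : ℝ) + 1) := ⟨_, rfl⟩
    have hε0 : 0 < ε := by rw [hε]; positivity
    obtain ⟨θ, hθ⟩ : ∃ θ : ℝ, θ = 1 + 1 / ((s : ℝ) + 1) := ⟨_, rfl⟩
    have hθ1 : 1 < θ := by
      rw [hθ]
      have : 0 < 1 / ((s : ℝ) + 1) := by positivity
      linarith
    rw [← hε, ← hθ]
    obtain ⟨C, K, y, Z, hC, hK, hy, hKb, hZ, hcore⟩ := hH ε hε0
    have hfl := floor_atTop θ hθ1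
    filter_upwards [hZ θ hθ1, hD] with ω h1 h2
    filter_upwards [h1, hfl.eventually hcore,
      hfl.eventually (h2 y hy K hK hKb (ε / (C + 1)) (by positivity))] with i g1 g3 g2 a ha
    have g6 := g3 ω a ha
    have hN : (0 : ℝ) ≤ (⌊θ ^ i⌋₊ : ℝ) := Nat.cast_nonneg _
    have g8 : C * (⌊θ ^ i⌋₊ : ℝ) *
        ∑ p ∈ (pr P (2 * A * ⌊θ ^ i⌋₊)).filter (y ⌊θ ^ i⌋₊ < ·), 1 / (p : ℝ) * |m p ω| ≤
        C * (⌊θ ^ i⌋₊ : ℝ) * (ε / (C + 1)) := mul_le_mul_of_nonneg_left g2 (by positivity)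
    have g9 : C * (⌊θ ^ i⌋₊ : ℝ) * (ε / (C + 1)) ≤ ε * (⌊θ ^ i⌋₊ : ℝ) := by
      have h3 : C * (ε / (C + 1)) ≤ ε := by
        rw [mul_div_assoc', div_le_iff₀ (by positivity)]
        nlinarith
      calc C * (⌊θ ^ i⌋₊ : ℝ) * (ε / (C + 1)) = C * (ε / (C + 1)) * (⌊θ ^ i⌋₊ : ℝ) := by ring
        _ ≤ ε * (⌊θ ^ i⌋₊ : ℝ) := mul_le_mul_of_nonneg_right h3 hN
    linarith
  filter_upwards [hall] with ω hω
  exact interpF (𝓕 ω) v (hv ω) 3 C₀ (by norm_num) hC₀ hI hω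

end Pool.Agent.Q270.CC
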