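import Pool.Agent.Q270.CC.Mean
import Pool.Agent.Q24.EL.NECL

set_option autoImplicit false

/-!
# All completions: final statements
-/

namespace Pool.Agent.Q270.CC

open Finset Filter Topology MeasureTheory
open Pool.Agent.Q270.EN

/-- the completely multiplicative function `cmf P s` is a completion -/
lemma comp_cmf (P : Set ℕ) (s : ℕ → ℝ) (hs : ∀ p, s p = 1 ∨ s p = -1) :
    Comp P s (fun n => if n = 0 then 0 else ((cmf P s n : ℝ) : ℂ)) := by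
  classical
  refine ⟨?_, ?_, ?_, ?_⟩
  · rw [if_neg one_ne_zero]
    unfold cmf
    simp
  · intro m n hmn
    by_cases hm : m = 0
    · simp [hm]
    · by_cases hn : n = 0
      · simp [hn]
      · rw [if_neg (Nat.mul_ne_zero hm hn), if_neg hm, if_neg hn, ← Complex.ofReal_mul]
        congr 1
        unfold cmf
        rw [Nat.Coprime.primeFactors_mul hmn, Finset.prod_union hmn.disjoint_primeFactors]
        congr 1
        · refine Finset.prod_congr rfl fun p hp => ?_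
          rw [Nat.factorization_eq_of_coprime_left hmn (Nat.mem_primeFactors_iff_mem_primeFactorsList.1 hp)]
        · refine Finset.prod_congr rfl fun p hp => ?_
          rw [Nat.factorization_eq_of_coprime_right hmn (Nat.mem_primeFactors_iff_mem_primeFactorsList.1 hp)]
  · intro n
    by_cases hn : n = 0
    · simp [hn]
    · rw [if_neg hn, Complex.norm_real, Real.norm_eq_abs]
      apply le_of_eq
      unfold cmf
      rw [Finset.abs_prod]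
      refine Finset.prod_eq_one fun p _ => ?_
      rw [abs_pow]
      split_ifs
      · rcases hs p with h | h <;> rw [h] <;> simp
      · simp
  · intro p hp hpP
    rw [if_neg hp.ne_zero]
    congr 1
    unfold cmf
    rw [hp.primeFactors, Finset.prod_singleton, if_pos hpP, hp.factorization_self, pow_one]

lemma cf_cmf (P : Set ℕ) (s : ℕ → ℝ) (T : Finset (ℕ × ℕ)) (q0 : ℕ × ℕ) (hq : 1 ≤ q0.1) (w : ℕ → ℂ)
    (N : ℕ) : cf (fun n => if n = 0 then 0 else ((cmf P s n : ℝ) : ℂ)) T q0 w N =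
    ∑ n ∈ Icc 1 N, w n * (vT T n : ℂ) *
      ((∏ q ∈ ({q0} : Finset (ℕ × ℕ)), cmf P s (q.1 * n + q.2) : ℝ) : ℂ) := by
  unfold cf
  refine Finset.sum_congr rfl fun n hn => ?_
  rw [Finset.mem_Icc] at hn
  have h1 : 1 ≤ q0.1 * n := Nat.mul_pos hq hn.1
  have h2 : q0.1 * n + q0.2 ≠ 0 := by omega
  simp only [if_neg h2, Finset.prod_singleton]

/-- all systems of forms at once -/
theorem asC_all {Ω : Type} [MeasurableSpace Ω] (μ : Measure Ω) [IsProbabilityMeasure μ]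
    (e : ℕ → Ω → ℝ) (he : Sgn e) (P : Set ℕ)
    (hP : Tendsto (fun N : ℕ => ms P ⌈(Real.log N) ^ 2⌉₊ N) atTop atTop)
    (hcond : AsCond μ e P) (w : ℕ → ℂ) (hw : ∀ n, ‖w n‖ ≤ 1) :
    ∀ᵐ ω ∂μ, ∀ (A : ℕ) (T : Finset (ℕ × ℕ)) (q0 : ℕ × ℕ), Adm A A (T ∪ {q0}) → q0 ∉ T →
      ∀ ε : ℝ, 0 < ε → ∃ N₀ : ℕ, ∀ N : ℕ, N₀ < N → ∀ f : ℕ → ℂ, Comp P (fun p => e p ω) f →
        ‖cf f T q0 w N‖ ≤ ε * N := by
  rw [ae_all_iff]
  intro A
  rw [ae_all_iff]
  intro T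
  rw [ae_all_iff]
  intro q0
  by_cases hT : Adm A A (T ∪ {q0})
  · by_cases hq : q0 ∉ T
    · filter_upwards [asC μ e he P hP hcond A T q0 w hT hq hw] with ω hω _ _
      exact hω
    · exact Filter.Eventually.of_forall fun ω _ h => absurd h hq
  · exact Filter.Eventually.of_forall fun ω h _ => absurd h hT

/-- the entropy condition is exact -/
theorem sharpC (η : ℝ) (h0 : 0 < η) (h1 : η < 1) : ∃ (Ω : Type) (_ : MeasurableSpace Ω)
    (μ : Measure Ω) (_ : IsProbabilityMeasure μ) (e : ℕ → Ω → ℝ), Sgn e ∧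
    (∀ S : Finset ℕ, (1 - η) * (S.card * Real.log 2) ≤ ent μ e S) ∧
    ∀ (P : Set ℕ) (T : Finset (ℕ × ℕ)) (q0 : ℕ × ℕ), 1 ≤ q0.1 → ∃ F : Ω → ℕ → ℂ,
      (∀ ω, Comp P (fun p => e p ω) (F ω)) ∧ ∀ N : ℕ,
      η * ∑ n ∈ Icc 1 N, vT T n ≤ ∫ ω, ‖cf (F ω) T q0 (fun _ => 1) N‖ ∂μ := by
  obtain ⟨Ω, mΩ, μ, hμ, e, he, hS, h⟩ := sharpL η h0 h1
  refine ⟨Ω, mΩ, μ, hμ, e, he, hS, fun P T q0 hq => ?_⟩
  refine ⟨fun ω n => if n = 0 then 0 else ((cmf P (fun p => e p ω) n : ℝ) : ℂ),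
    fun ω => comp_cmf P _ (fun p => he.val p ω), fun N => ?_⟩
  refine (h P T {q0} N).trans (le_of_eq ?_)
  congr 1
  ext ω
  rw [cf_cmf P (fun p => e p ω) T q0 hq (fun _ => 1) N]
  rfl

/-- the condition on the primes is exact -/
theorem necC (P : Set ℕ) (hs : Summable fun p : {p : ℕ // p.Prime ∧ p ∈ P} => 1 / ((p : ℕ) : ℝ))
    (A : ℕ) (T : Finset (ℕ × ℕ)) (q0 : ℕ × ℕ) (hTU : Adm A A (T ∪ {q0})) (hq0 : q0 ∉ T)
    (hT1 : T.card ≤ 1) (hcop : ∀ q ∈ T, Nat.Coprime q.1 q.2) :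
    ∃ (w : ℕ → ℂ) (c : ℝ), (∀ n, ‖w n‖ ≤ 1) ∧ 0 < c ∧ ∀ᶠ N : ℕ in atTop, ∀ s : ℕ → ℝ,
      (∀ p, s p = 1 ∨ s p = -1) → ∃ f : ℕ → ℂ, Comp P s f ∧ c * N ≤ ‖cf f T q0 w N‖ := by
  have hdis : Disjoint T {q0} := by
    rw [Finset.disjoint_singleton_right]
    exact hq0
  obtain ⟨w, c, hw, hc, h⟩ := Pool.Agent.Q24.EL.t_NECL Pool.Agent.Q225.EL.t_BIG P hs A T {q0} hTU hdis
    (Finset.singleton_nonempty q0) hT1 hcop
  refine ⟨w, c, hw, hc, ?_⟩
  filter_upwards [h] with N hN s hs'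
  refine ⟨_, comp_cmf P s hs', ?_⟩
  rw [cf_cmf P s T q0 (hTU.2.1 q0 (Finset.mem_union_right _ (Finset.mem_singleton_self q0))).1 w N]
  exact hN s hs'

end Pool.Agent.Q270.CC
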