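import Pool.Agent.Q270.CC.AsL

set_option autoImplicit false

/-!
# All completions: the statements in mean and almost surely
-/

namespace Pool.Agent.Q270.CC

open Finset Filter Topology MeasureTheory
open Pool.Agent.Q270.EN Pool.Agent.Q182.EN Pool.Agent.Q211.EN

theorem c_COREC : S_COREC :=
  t_COREC Pool.Agent.Q177.EL.t_CLS Pool.Agent.Q225.EL.t_BIG
    (Pool.Agent.Q177.EL.t_EVN Pool.Agent.Q177.EL.t_CLS)

/-- the lower end of the window: `(log N) ^ D`, any `D`, instead of `(log N) ^ 2` -/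
lemma mass_pow (P : Set ℕ) (D : ℕ) (hD : 1 ≤ D)
    (hP : Tendsto (fun N : ℕ => ms P ⌈(Real.log N) ^ 2⌉₊ N) atTop atTop) :
    Tendsto (fun N : ℕ => ms P ⌈(Real.log N) ^ D⌉₊ N) atTop atTop := by
  classical
  obtain ⟨C0, hC0, hmert⟩ := Pool.Agent.Q163.RP.mert_diff
  have hlog : Tendsto (fun N : ℕ => Real.log N) atTop atTop :=
    Real.tendsto_log_atTop.comp (tendsto_natCast_atTop_atTop (R := ℝ))
  refine tendsto_atTop_mono' atTop ?_
    (tendsto_atTop_add_const_right _ (-(Real.log (D : ℕ) + C0)) hP)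
  filter_upwards [hlog.eventually_ge_atTop 2] with N hN
  obtain ⟨z, hz⟩ : ∃ z, z = ⌈(Real.log N) ^ 2⌉₊ := ⟨_, rfl⟩
  obtain ⟨b, hb⟩ : ∃ b, b = ⌈(Real.log N) ^ D⌉₊ := ⟨_, rfl⟩
  rw [← hz, ← hb]
  have hzr : (Real.log N) ^ 2 ≤ (z : ℝ) := by
    rw [hz]
    exact Nat.le_ceil _
  have hz3 : 3 ≤ z := by
    have h1 : (4 : ℝ) ≤ z := by nlinarith
    have h2 : 4 ≤ z := by exact_mod_cast h1
    omega
  have hbz : b ≤ z ^ D := by
    rw [hb]
    apply Nat.ceil_le.2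
    push_cast
    apply pow_le_pow_left₀ (by linarith)
    nlinarith
  have h1 := hmert z D hz3 hD
  have h2 : ms P z N ≤ ms P b N +
      ∑ p ∈ ((Icc 1 (z ^ D)).filter Nat.Prime).filter (fun p => z < p), (1 : ℝ) / p := by
    unfold ms
    have h3 : (pr P N).filter (z < ·) ⊆ (pr P N).filter (b < ·) ∪
        ((Icc 1 (z ^ D)).filter Nat.Prime).filter (fun p => z < p) := by
      intro p hp
      obtain ⟨h1, h2, h3, h4⟩ := mem_win.1 hp
      rw [Finset.mem_union]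
      by_cases h5 : p ≤ b
      · exact Or.inr (Finset.mem_filter.2 ⟨Finset.mem_filter.2
          ⟨Finset.mem_Icc.2 ⟨h1.one_lt.le, h5.trans hbz⟩, h1⟩, h4⟩)
      · exact Or.inl (mem_win.2 ⟨h1, h2, h3, by omega⟩)
    refine (Finset.sum_le_sum_of_subset_of_nonneg h3 (fun p _ _ => by positivity)).trans ?_
    exact sum_union_le' _ _ (fun p : ℕ => 1 / (p : ℝ)) (fun p => by positivity)
  linarith

/-- the size of the mean of the exceptional variable -/
lemma z_small (A k : ℕ) (hA : 1 ≤ A) : ∀ᶠ N : ℕ in atTop, ∀ y : ℕ,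
    ⌈(Real.log N) ^ (2 * k + 8)⌉₊ ≤ y →
    2 * A * N * (1 + Real.log ((2 * A * N : ℕ) : ℝ)) ^ (k + 1) / Real.sqrt y ≤
      N * (1 / (Real.log N) ^ 2) := by
  have hlog : Tendsto (fun N : ℕ => Real.log N) atTop atTop :=
    Real.tendsto_log_atTop.comp (tendsto_natCast_atTop_atTop (R := ℝ))
  filter_upwards [hlog.eventually_ge_atTop (1 + Real.log ((2 * A : ℕ) : ℝ)),
    hlog.eventually_ge_atTop (2 * A * 2 ^ (k + 1)), hlog.eventually_ge_atTop 1,
    eventually_ge_atTop 1] with N h1 h2 h3 hN1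
  intro y hy
  have hN0 : (0 : ℝ) < N := by exact_mod_cast hN1
  obtain ⟨l, hl⟩ : ∃ l, l = Real.log N := ⟨_, rfl⟩
  rw [← hl] at h1 h2 h3 hy ⊢
  have hl0 : 0 < l := by linarith
  have h4 : 1 + Real.log ((2 * A * N : ℕ) : ℝ) ≤ 2 * l := by
    have h5 : ((2 * A * N : ℕ) : ℝ) = ((2 * A : ℕ) : ℝ) * N := by push_cast; ring
    rw [h5, Real.log_mul (by positivity) hN0.ne', ← hl]
    linarith
  have h5 : l ^ (k + 4) ≤ Real.sqrt y := by
    apply Real.le_sqrt_of_sq_le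
    have h6 : l ^ (2 * k + 8) ≤ (y : ℝ) := (Nat.le_ceil _).trans (by exact_mod_cast hy)
    refine le_trans (le_of_eq ?_) h6
    rw [← pow_mul]
    congr 1
    ring
  have h6 : 0 ≤ 1 + Real.log ((2 * A * N : ℕ) : ℝ) := by
    have : 0 ≤ Real.log ((2 * A * N : ℕ) : ℝ) := Real.log_natCast_nonneg _
    linarith
  calc 2 * A * N * (1 + Real.log ((2 * A * N : ℕ) : ℝ)) ^ (k + 1) / Real.sqrt y
      ≤ 2 * A * N * (2 * l) ^ (k + 1) / l ^ (k + 4) := by
        apply div_le_div₀ (by positivity) _ (by positivity) h5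
        apply mul_le_mul_of_nonneg_left _ (by positivity)
        exact pow_le_pow_left₀ h6 h4 _
    _ = N * (2 * A * 2 ^ (k + 1)) / l ^ 3 := by
        rw [mul_pow]
        have h7 : l ^ (k + 4) = l ^ (k + 1) * l ^ 3 := by ring
        rw [h7]
        field_simp
    _ ≤ N * l / l ^ 3 := by
        apply div_le_div_of_nonneg_right _ (by positivity)
        exact mul_le_mul_of_nonneg_left h2 hN0.le
    _ = N * (1 / l ^ 2) := by
        field_simp

/-- **in mean**, uniformly in the law and the weights -/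
theorem meanC (P : Set ℕ) (hP : Tendsto (fun N : ℕ => ms P ⌈(Real.log N) ^ 2⌉₊ N) atTop atTop)
    (A : ℕ) (T : Finset (ℕ × ℕ)) (q0 : ℕ × ℕ) (hTU : Adm A A (T ∪ {q0})) (hq0 : q0 ∉ T)
    (ε : ℝ) (hε : 0 < ε) : ∃ η : ℝ, 0 < η ∧ ∀ Y : ℕ, ∀ᶠ N : ℕ in atTop,
      ∀ (Ω : Type) [MeasurableSpace Ω] (μ : Measure Ω) [IsProbabilityMeasure μ] (e : ℕ → Ω → ℝ),
      Sgn e → (∀ t, Y ≤ t → t ≤ 2 * A * N →
        (1 - η) * ((pr P t).card * Real.log 2) ≤ ent μ e (pr P t)) →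
      ∀ w : ℕ → ℂ, (∀ n, ‖w n‖ ≤ 1) → ∃ R : Ω → ℝ, Measurable R ∧ (∀ ω, 0 ≤ R ω) ∧
        Integrable R μ ∧ ∫ ω, R ω ∂μ ≤ ε * N ∧
        ∀ ω, ∀ f : ℕ → ℂ, Comp P (fun p => e p ω) f → ‖cf f T q0 w N‖ ≤ R ω := by
  classical
  have hA : 1 ≤ A := by
    obtain ⟨q, hq⟩ := hTU.1
    exact (hTU.2.1 q hq).1.trans (hTU.2.1 q hq).2.1
  have hP' := mass_pow P (2 * T.card + 8) (by omega) hP
  obtain ⟨C', K, y, hC'0, hKp, hyinf, hy1, hy2, hcore⟩ := c_COREC P _ hP' A T q0 hA hTU hq0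
    (ε / 4) (by positivity)
  obtain ⟨s, hs⟩ : ∃ s : ℝ, s = ε / (4 * (C' + 1) * (1 + K)) := ⟨_, rfl⟩
  have hs0 : 0 < s := by rw [hs]; positivity
  have hlog2 : 0 < Real.log 2 := Real.log_pos (by norm_num)
  refine ⟨s ^ 2 / 2 / Real.log 2, by positivity, fun Y => ?_⟩
  have hyr := (tendsto_natCast_atTop_atTop (R := ℝ)).comp hyinf
  have hlog : Tendsto (fun N : ℕ => Real.log N) atTop atTop :=
    Real.tendsto_log_atTop.comp (tendsto_natCast_atTop_atTop (R := ℝ))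
  filter_upwards [hy1, hy2, hcore, hyinf.eventually_ge_atTop Y, z_small A T.card hA,
    hyr.eventually_ge_atTop ((4 * C' / ε) ^ 2), eventually_ge_atTop 1,
    hlog.eventually_ge_atTop (1 + 4 / ε)] with N h1 h2 h3 h5 hz h6 hN1 hl
  intro Ω _ μ _ e he hent w hw
  obtain ⟨m, hm5, hm1, hm2, hm0, hm3, hm4⟩ := t_GENC μ e he P
  obtain ⟨Z, hZ1, hZ2, hZ3, hZ4, hZ5⟩ := h3 Ω μ e m he hm4 w hw
  have hNn : (0 : ℝ) ≤ N := Nat.cast_nonneg _
  have hy0 : (0 : ℝ) < y N := by exact_mod_cast h1.2.1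
  have hyX : y N ≤ 2 * A * N := h1.2.2.trans (Nat.le_mul_of_pos_left N (by omega))
  have hdef : ∀ t, Y ≤ t → t ≤ 2 * A * N → defic μ e (pr P t) ≤ s ^ 2 / 2 * (pr P t).card := by
    intro t ht1 ht2
    have g1 := hent t ht1 ht2
    unfold defic
    have g2 : (1 - s ^ 2 / 2 / Real.log 2) * ((pr P t).card * Real.log 2) =
        (pr P t).card * Real.log 2 - s ^ 2 / 2 * (pr P t).card := by
      field_simp
    rw [g2] at g1
    linarith
  have hdr := drift Pool.Agent.Q26.EN.t_TEL μ e he P (2 * A * N) (y N) hyX (s ^ 2 / 2)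
    (by positivity) hm0 (fun t ht1 ht2 => hdef t (h5.trans ht1) ht2)
  -- the drift
  obtain ⟨Dr, hDr⟩ : ∃ Dr : Ω → ℝ, Dr = fun ω => C' * N *
    ∑ p ∈ (pr P (2 * A * N)).filter (y N < ·), 1 / (p : ℝ) * |m p ω| := ⟨_, rfl⟩
  have hDrm : Measurable Dr := by
    rw [hDr]
    refine (Finset.measurable_sum _ fun p _ => ?_).const_mul _
    exact (measurable_norm.comp (hm1 p)).const_mul _
  have hDr0 : ∀ ω, 0 ≤ Dr ω := by
    intro ω
    rw [hDr]
    positivity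
  have hDrb : ∀ ω, Dr ω ≤ C' * N * K := by
    intro ω
    rw [hDr]
    apply mul_le_mul_of_nonneg_left _ (by positivity)
    refine le_trans (Finset.sum_le_sum fun p _ => ?_) h2
    exact mul_le_of_le_one_right (by positivity) (hm2 p ω)
  have hDri : Integrable Dr μ := by
    refine Integrable.of_bound hDrm.aestronglyMeasurable (C' * N * K) ?_
    filter_upwards with ω
    rw [Real.norm_eq_abs, abs_of_nonneg (hDr0 ω)]
    exact hDrb ω
  have hmean := mean_bound hm1 hm2 ((pr P (2 * A * N)).filter (y N < ·))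
    (fun p => dd μ e (pr P p) p)
    (fun p hp => ⟨(mem_win.1 hp).1.pos, hm3 p (mem_win.1 hp).1 (mem_win.1 hp).2.1⟩)
    (Z := fun _ => (0 : ℝ)) (F := Dr)
    measurable_const (fun _ => le_rfl) ⟨0, fun _ => le_rfl⟩ 0 (C' * N) (y N) K
    (s ^ 2 / 2 * (1 + K)) (by positivity) hy0
    (by
      have e1 : ∫ _ω : Ω, (0 : ℝ) ^ 2 ∂μ = 0 := by simp
      rw [e1]
      positivity)
    hDr0 (fun ω => by
      rw [hDr]
      simp) h2
    (hdr.trans (mul_le_mul_of_nonneg_left (by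
      have : ms P (y N) (2 * A * N) ≤ K := h2
      unfold ms at this
      linarith) (by positivity)))
  obtain ⟨Bz, hBz⟩ := hZ3
  have hZi : Integrable Z μ := by
    refine Integrable.of_bound hZ1.aestronglyMeasurable Bz ?_
    filter_upwards with ω
    rw [Real.norm_eq_abs, abs_of_nonneg (hZ2 ω)]
    exact hBz ω
  refine ⟨fun ω => ε / 4 * N + Z ω + Dr ω, (measurable_const.add hZ1).add hDrm, ?_, ?_, ?_, ?_⟩
  · intro ω
    have g1 := hZ2 ω
    have g2 := hDr0 ω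
    positivity
  · exact ((integrable_const _).add hZi).add hDri
  · have e1 : ∫ ω, (ε / 4 * N + Z ω + Dr ω) ∂μ = ∫ ω, (ε / 4 * N + Z ω) ∂μ + ∫ ω, Dr ω ∂μ :=
      integral_add ((integrable_const _).add hZi) hDri
    have e2 : ∫ ω, (ε / 4 * (N : ℝ) + Z ω) ∂μ = ∫ _ω, ε / 4 * (N : ℝ) ∂μ + ∫ ω, Z ω ∂μ :=
      integral_add (integrable_const _) hZi
    have e3 : ∫ _ω : Ω, ε / 4 * (N : ℝ) ∂μ = ε / 4 * N := by
      rw [integral_const, smul_eq_mul]
      simp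
    rw [e1, e2, e3]
    -- numbers
    have f1 : C' * N / Real.sqrt (y N) ≤ ε / 4 * N := by
      rw [div_le_iff₀ (Real.sqrt_pos.2 hy0)]
      have h8 : 4 * C' / ε ≤ Real.sqrt (y N) := by
        apply Real.le_sqrt_of_sq_le
        exact h6
      rw [div_le_iff₀ hε] at h8
      nlinarith
    have f2 : Real.sqrt (K * (2 * (s ^ 2 / 2 * (1 + K)))) ≤ s * (1 + K) := by
      apply Real.sqrt_le_iff.2
      constructor
      · positivity
      · have h8 : K * (2 * (s ^ 2 / 2 * (1 + K))) = s ^ 2 * (K * (1 + K)) := by ring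
        rw [h8, mul_pow]
        apply mul_le_mul_of_nonneg_left _ (by positivity)
        nlinarith
    have f3 : C' * N * Real.sqrt (K * (2 * (s ^ 2 / 2 * (1 + K)))) ≤ ε / 4 * N := by
      have h8 : C' * N * Real.sqrt (K * (2 * (s ^ 2 / 2 * (1 + K)))) ≤
          (C' + 1) * N * (s * (1 + K)) := by
        apply mul_le_mul _ f2 (Real.sqrt_nonneg _) (by positivity)
        exact mul_le_mul_of_nonneg_right (by linarith) hNn
      refine h8.trans (le_of_eq ?_)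
      rw [hs]
      field_simp
    have f4 : ∫ ω, Z ω ∂μ ≤ ε / 4 * N := by
      refine hZ4.trans ((hz (y N) h1.1).trans ?_)
      have h8 : 1 / (Real.log N) ^ 2 ≤ ε / 4 := by
        have h9 : 0 < 4 / ε := by positivity
        have h10 : 0 < Real.log N := by linarith
        rw [div_le_iff₀ (by positivity)]
        have h11 : 4 / ε ≤ (Real.log N) ^ 2 := by nlinarith
        rw [div_le_iff₀ hε] at h11
        linarith
      have h9 := mul_le_mul_of_nonneg_left h8 hNn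
      linarith
    linarith
  · intro ω f hf
    rw [hDr]
    exact hZ5 ω f hf

/-- **almost surely**, uniformly in the completions -/
theorem asC {Ω : Type} [MeasurableSpace Ω] (μ : Measure Ω) [IsProbabilityMeasure μ]
    (e : ℕ → Ω → ℝ) (he : Sgn e) (P : Set ℕ)
    (hP : Tendsto (fun N : ℕ => ms P ⌈(Real.log N) ^ 2⌉₊ N) atTop atTop)
    (hcond : AsCond μ e P) (A : ℕ) (T : Finset (ℕ × ℕ)) (q0 : ℕ × ℕ) (w : ℕ → ℂ)
    (hTU : Adm A A (T ∪ {q0})) (hq0 : q0 ∉ T) (hw : ∀ n, ‖w n‖ ≤ 1) : ∀ᵐ ω ∂μ,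
      ∀ ε : ℝ, 0 < ε → ∃ N₀ : ℕ, ∀ N : ℕ, N₀ < N → ∀ f : ℕ → ℂ, Comp P (fun p => e p ω) f →
        ‖cf f T q0 w N‖ ≤ ε * N := by
  classical
  obtain ⟨m, hm5, hmm, hm1, hm0, hm2, hgen⟩ := t_GENC μ e he P
  have hA : 1 ≤ A := by
    obtain ⟨q, hq⟩ := hTU.1
    exact (hTU.2.1 q hq).1.trans (hTU.2.1 q hq).2.1
  obtain ⟨C₀, hC₀, hI⟩ := Pool.Agent.Q285.EN.t_INT A T (adm_left hTU)
  have heng := engine μ P A m (drift_all μ e P m hm5 hmm hm1 hm2 (cond_of μ e he P hcond) A)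
    (fun ω => {a | ∃ f : ℕ → ℂ, Comp P (fun p => e p ω) f ∧
      a = fun n => w n * (vT T n : ℂ) * f (q0.1 * n + q0.2)}) (vT T) (by
      rintro ω a ⟨f, hf, rfl⟩ n
      rw [norm_mul, norm_mul, Complex.norm_real, Real.norm_eq_abs, abs_of_nonneg (vT_nonneg T n)]
      refine (mul_le_of_le_one_right (mul_nonneg (norm_nonneg _) (vT_nonneg T n)) (hf.bd _)).trans ?_
      exact mul_le_of_le_one_left (vT_nonneg T n) (hw n)) C₀ hC₀ hI (by
      intro ε hε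
      obtain ⟨C, K, y, hC0, hK, hy, hy1, hKb, hcore⟩ :=
        c_COREC P _ (mass_pow P (2 * T.card + 8) (by omega) hP) A T q0 hA hTU hq0 ε hε
      have hZ : ∀ N : ℕ, ∃ Z : Ω → ℝ, Measurable Z ∧ (∀ ω, 0 ≤ Z ω) ∧ (∃ B : ℝ, ∀ ω, Z ω ≤ B) ∧
          ((∃ Z : Ω → ℝ, Measurable Z ∧ (∀ ω, 0 ≤ Z ω) ∧ (∃ B : ℝ, ∀ ω, Z ω ≤ B) ∧
            ∫ ω, Z ω ∂μ ≤ 2 * A * N * (1 + Real.log ((2 * A * N : ℕ) : ℝ)) ^ (T.card + 1) /
              Real.sqrt (y N) ∧
            ∀ ω, ∀ f : ℕ → ℂ, Comp P (fun p => e p ω) f → ‖cf f T q0 w N‖ ≤ ε * N + Z ω + C * N *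
              ∑ p ∈ (pr P (2 * A * N)).filter (y N < ·), 1 / (p : ℝ) * |m p ω|) →
            ∫ ω, Z ω ∂μ ≤ 2 * A * N * (1 + Real.log ((2 * A * N : ℕ) : ℝ)) ^ (T.card + 1) /
              Real.sqrt (y N) ∧
            ∀ ω, ∀ f : ℕ → ℂ, Comp P (fun p => e p ω) f → ‖cf f T q0 w N‖ ≤ ε * N + Z ω + C * N *
              ∑ p ∈ (pr P (2 * A * N)).filter (y N < ·), 1 / (p : ℝ) * |m p ω|) := by
        intro N
        by_cases h : ∃ Z : Ω → ℝ, Measurable Z ∧ (∀ ω, 0 ≤ Z ω) ∧ (∃ B : ℝ, ∀ ω, Z ω ≤ B) ∧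
            ∫ ω, Z ω ∂μ ≤ 2 * A * N * (1 + Real.log ((2 * A * N : ℕ) : ℝ)) ^ (T.card + 1) /
              Real.sqrt (y N) ∧
            ∀ ω, ∀ f : ℕ → ℂ, Comp P (fun p => e p ω) f → ‖cf f T q0 w N‖ ≤ ε * N + Z ω + C * N *
              ∑ p ∈ (pr P (2 * A * N)).filter (y N < ·), 1 / (p : ℝ) * |m p ω|
        · obtain ⟨Z, h1, h2, h3, h4, h5⟩ := h
          exact ⟨Z, h1, h2, h3, fun _ => ⟨h4, h5⟩⟩
        · exact ⟨fun _ => 0, measurable_const, fun _ => le_rfl, ⟨0, fun _ => le_rfl⟩,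
            fun h1 => absurd h1 h⟩
      choose Z hZm hZ0 hZb hZc using hZ
      choose Bd hBd using hZb
      have hcore' : ∀ᶠ N : ℕ in atTop,
            ∫ ω, Z N ω ∂μ ≤ 2 * A * N * (1 + Real.log ((2 * A * N : ℕ) : ℝ)) ^ (T.card + 1) /
              Real.sqrt (y N) ∧
            ∀ ω, ∀ f : ℕ → ℂ, Comp P (fun p => e p ω) f → ‖cf f T q0 w N‖ ≤ ε * N + Z N ω + C * N *
              ∑ p ∈ (pr P (2 * A * N)).filter (y N < ·), 1 / (p : ℝ) * |m p ω| := by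
        filter_upwards [hcore] with N hN
        exact hZc N (hN Ω μ e m he hgen w hw)
      refine ⟨C, K, y, Z, hC0, hK, hy, hKb, ?_, ?_⟩
      · intro θ hθ
        refine bc μ Z hZm hZ0 Bd hBd 1 (by norm_num) 1 (by positivity) ?_ θ ε hθ hε
        filter_upwards [hcore', hy1, z_small A T.card hA, eventually_ge_atTop 2] with N h1 h2 hz h3
        have hN : (0 : ℝ) < N := by exact_mod_cast (by omega : 0 < N)
        simp only [pow_one]
        rw [integral_div, div_le_iff₀ hN]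
        refine h1.1.trans ((hz (y N) h2.1).trans (le_of_eq ?_))
        ring
      · filter_upwards [hcore'] with N hN ω a ha
        obtain ⟨f, hf, rfl⟩ := ha
        exact hN.2 ω f hf)
  filter_upwards [heng] with ω hω
  intro ε hε
  obtain ⟨N₀, hN₀⟩ := hω ε hε
  refine ⟨N₀, fun N hN f hf => ?_⟩
  exact hN₀ N hN _ ⟨f, hf, rfl⟩

end Pool.Agent.Q270.CC
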