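import Pool.Agent.Q270.CC.Eng
import Pool.Agent.Q270.EN.GenC

set_option autoImplicit false

/-!
# The exceptional variables along geometric sequences (after helper285, helper182)
-/

namespace Pool.Agent.Q270.CC

open Finset Filter Topology MeasureTheory
open Pool.Agent.Q270.EN Pool.Agent.Q182.EN Pool.Agent.Q211.EN

/-- Borel-Cantelli along `⌊θ ^ i⌋`: power `r` of the exceptional variables -/
lemma bc {Ω : Type} [MeasurableSpace Ω] (μ : Measure Ω) [IsProbabilityMeasure μ]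
    (Z : ℕ → Ω → ℝ) (hZm : ∀ N, Measurable (Z N)) (hZ0 : ∀ N ω, 0 ≤ Z N ω) (Bd : ℕ → ℝ)
    (hBd : ∀ N ω, Z N ω ≤ Bd N) (r : ℕ) (hr : r ≠ 0) (C : ℝ) (hC : 0 ≤ C)
    (hZ : ∀ᶠ N : ℕ in atTop, ∫ ω, (Z N ω / N) ^ r ∂μ ≤ C / (Real.log N) ^ 2)
    (θ ε : ℝ) (hθ : 1 < θ) (hε : 0 < ε) :
    ∀ᵐ ω ∂μ, ∀ᶠ i : ℕ in atTop, Z ⌊θ ^ i⌋₊ ω ≤ ε * (⌊θ ^ i⌋₊ : ℝ) := by
  have hfl := floor_atTop θ hθ
  obtain ⟨f, hf⟩ : ∃ f : ℕ → Ω → ℝ, f = fun i ω => (Z ⌊θ ^ i⌋₊ ω / (⌊θ ^ i⌋₊ : ℝ)) ^ r := ⟨_, rfl⟩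
  have hfm : ∀ i, Measurable (f i) := fun i => by
    rw [hf]
    exact ((hZm _).div_const _).pow_const r
  have hf0 : ∀ i ω, 0 ≤ f i ω := fun i ω => by
    rw [hf]
    exact pow_nonneg (div_nonneg (hZ0 _ _) (Nat.cast_nonneg _)) r
  have hfi : ∀ i, Integrable (f i) μ := by
    intro i
    have hN : (0 : ℝ) < (⌊θ ^ i⌋₊ : ℝ) := by exact_mod_cast floor_pos θ hθ i
    refine Integrable.of_bound (hfm i).aestronglyMeasurable
      ((Bd ⌊θ ^ i⌋₊ / (⌊θ ^ i⌋₊ : ℝ)) ^ r) (Eventually.of_forall fun ω => ?_)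
    rw [Real.norm_of_nonneg (hf0 i ω), hf]
    have h1 : 0 ≤ Z ⌊θ ^ i⌋₊ ω / (⌊θ ^ i⌋₊ : ℝ) := div_nonneg (hZ0 _ ω) hN.le
    exact pow_le_pow_left₀ h1 (div_le_div_of_nonneg_right (hBd _ ω) hN.le) r
  have hfs : Summable fun i => ∫ ω, f i ω ∂μ := by
    have hl : 0 < Real.log θ := Real.log_pos hθ
    have hg : Summable fun i : ℕ =>
        C / (Real.log θ / 2) ^ 2 * (1 / (i : ℝ) ^ 2) :=
      (Real.summable_one_div_nat_pow.mpr (by norm_num)).mul_left _
    refine Summable.of_norm_bounded_eventually_nat hg ?_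
    filter_upwards [hfl.eventually hZ, log_floor θ hθ, eventually_ge_atTop 1] with i h2 h3 h4
    rw [Real.norm_of_nonneg (integral_nonneg (hf0 i)), hf]
    have hi : (0 : ℝ) < (i : ℝ) := by exact_mod_cast h4
    have h8 : ((i : ℝ) * (Real.log θ / 2)) ^ 2 ≤ (Real.log (⌊θ ^ i⌋₊ : ℝ)) ^ 2 :=
      pow_le_pow_left₀ (by positivity) h3 2
    refine h2.trans ?_
    have h9 : C / (Real.log (⌊θ ^ i⌋₊ : ℝ)) ^ 2 ≤ C / ((i : ℝ) * (Real.log θ / 2)) ^ 2 :=
      div_le_div_of_nonneg_left hC (by positivity) h8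
    refine h9.trans (le_of_eq ?_)
    field_simp
  have hae := ae_summable μ f hfm hf0 hfi hfs
  filter_upwards [hae] with ω h1
  have h3 := h1.tendsto_atTop_zero
  have h4 : ∀ᶠ i : ℕ in atTop, f i ω < ε ^ r := h3.eventually_lt_const (by positivity)
  filter_upwards [h4] with i hi
  have hN : (0 : ℝ) < (⌊θ ^ i⌋₊ : ℝ) := by exact_mod_cast floor_pos θ hθ i
  rw [hf] at hi
  have h5 : Z ⌊θ ^ i⌋₊ ω / (⌊θ ^ i⌋₊ : ℝ) < ε := lt_of_pow_lt_pow_left₀ r hε.le hi
  exact ((div_lt_iff₀ hN).mp h5).le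

/-- the drift tends to zero for summable deficits and for conditional means tending to zero -/
lemma drift_all {Ω : Type} [MeasurableSpace Ω] (μ : Measure Ω) [IsProbabilityMeasure μ]
    (e : ℕ → Ω → ℝ) (P : Set ℕ) (m : ℕ → Ω → ℝ)
    (hm5 : ∀ p, p.Prime → p ∈ P → ∀ η : ℝ, BiasLe μ e P p η → ∀ᵐ ω ∂μ, |m p ω| ≤ η)
    (hmm : ∀ p, Measurable (m p)) (hm1 : ∀ p ω, |m p ω| ≤ 1)
    (hm2 : ∀ p, p.Prime → p ∈ P → ∫ ω, m p ω ^ 2 ∂μ ≤ 2 * dd μ e (pr P p) p)
    (h : (Summable fun p : {p : ℕ // p.Prime ∧ p ∈ P} => dd μ e (pr P p) p / (p : ℕ)) ∨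
      ∃ η : ℕ → ℝ, Tendsto η atTop (𝓝 0) ∧ ∀ p, p.Prime → p ∈ P → BiasLe μ e P p (η p))
    (A : ℕ) : ∀ᵐ ω ∂μ, Drift P A (fun p => m p ω) := by
  classical
  rcases h with hdd | ⟨η, hη, hb⟩
  · obtain ⟨F, hF⟩ : ∃ F : ℕ → Ω → ℝ, F = fun p ω => if p.Prime ∧ p ∈ P then m p ω ^ 2 / p else 0 :=
      ⟨_, rfl⟩
    have hFmeas : ∀ p, Measurable (F p) := by
      intro p
      by_cases h : p.Prime ∧ p ∈ P
      · simp only [hF, if_pos h]
        exact ((hmm p).pow_const 2).div_const _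
      · simp only [hF, if_neg h]
        exact measurable_const
    have hF0 : ∀ p ω, 0 ≤ F p ω := by
      intro p ω
      simp only [hF]
      split_ifs
      · positivity
      · exact le_rfl
    have hF1 : ∀ p ω, F p ω ≤ 1 := by
      intro p ω
      simp only [hF]
      split_ifs with h
      · have hp : (1 : ℝ) ≤ p := by exact_mod_cast h.1.one_lt.le
        have h1 : m p ω ^ 2 ≤ 1 := by
          rw [← sq_abs]
          exact pow_le_one₀ (abs_nonneg _) (hm1 p ω)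
        rw [div_le_one (by linarith)]
        linarith
      · norm_num
    have hFi : ∀ p, Integrable (F p) μ := fun p =>
      Integrable.of_bound (hFmeas p).aestronglyMeasurable 1 (Eventually.of_forall fun ω => by
        rw [Real.norm_of_nonneg (hF0 p ω)]; exact hF1 p ω)
    have hFs : Summable fun p => ∫ ω, F p ω ∂μ := by
      have h1 : Summable (Set.indicator {p : ℕ | p.Prime ∧ p ∈ P}
          fun p => dd μ e (pr P p) p / (p : ℝ)) := by
        rw [← summable_subtype_iff_indicator]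
        exact hdd
      refine Summable.of_nonneg_of_le (fun p => integral_nonneg (hF0 p)) (fun p => ?_)
        (h1.mul_left 2)
      by_cases h : p.Prime ∧ p ∈ P
      · rw [Set.indicator_of_mem (show p ∈ {p : ℕ | p.Prime ∧ p ∈ P} from h)]
        have h2 : ∫ ω, F p ω ∂μ = (∫ ω, m p ω ^ 2 ∂μ) / p := by
          rw [← integral_div]
          refine integral_congr_ae (Eventually.of_forall fun ω => ?_)
          simp only [hF, if_pos h]
        rw [h2, ← mul_div_assoc]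
        have hp : (0 : ℝ) < p := by exact_mod_cast h.1.pos
        exact div_le_div_of_nonneg_right (hm2 p h.1 h.2) hp.le
      · rw [Set.indicator_of_notMem (show p ∉ {p : ℕ | p.Prime ∧ p ∈ P} from h)]
        have h2 : ∫ ω, F p ω ∂μ = 0 := by
          simp only [hF, if_neg h, integral_zero]
        rw [h2, mul_zero]
    have hae := ae_summable μ F hFmeas hF0 hFi hFs
    filter_upwards [hae] with ω hω
    refine drift_summable P A (fun p => m p ω) (fun p => F p ω) hω ?_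
    intro p h1 h2
    simp only [hF, if_pos (And.intro h1 h2)]
  · have hall : ∀ᵐ ω ∂μ, ∀ p, p.Prime → p ∈ P → |m p ω| ≤ η p := by
      rw [ae_all_iff]
      intro p
      by_cases h1 : p.Prime
      · by_cases h2 : p ∈ P
        · filter_upwards [hm5 p h1 h2 (η p) (hb p h1 h2)] with ω hω _ _
          exact hω
        · exact Filter.Eventually.of_forall fun ω _ h => absurd h h2
      · exact Filter.Eventually.of_forall fun ω h _ => absurd h h1
    filter_upwards [hall] with ω hω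
    exact drift_bias P A (fun p => m p ω) η hη hω

end Pool.Agent.Q270.CC
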